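import Mathlib

/-!
# Lattice points for a simultaneous approximation body: growth of the number of points

For `y ∈ ℝ²` and `u > 0` let `Ball y u X` be the set of the integer vectors `(k, h)` with `|k| < X`,
`|k y - h|_∞ < u X`. If it is not contained in a line, then `24 |Ball X| ≤ |Ball (16 X)|`.
-/

set_option autoImplicit false

open Finset
open scoped Pointwise

namespace Pool.Agent.U14.IK

abbrev L3 := ℤ × ℤ × ℤ

/-- the distance of `t` to the nearest integer -/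
noncomputable def dn (t : ℝ) : ℝ := |t - round t|

/-- the distance of `k y` to the nearest integer vector -/
noncomputable def dZ (y : ℝ × ℝ) (k : ℕ) : ℝ := max (dn (k * y.1)) (dn (k * y.2))

/-- records: denominators of best approximations -/
def Rec (y : ℝ × ℝ) (k : ℕ) : Prop := 1 ≤ k ∧ ∀ k' : ℕ, 1 ≤ k' → k' < k → dZ y k < dZ y k'

/-- the integer vector of a denominator -/
noncomputable def vec (y : ℝ × ℝ) (k : ℕ) : L3 := ((k : ℤ), round (k * y.1), round (k * y.2))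

/-- the body -/
def Ball (y : ℝ × ℝ) (u X : ℝ) : Set L3 :=
  {w | |(w.1 : ℝ)| < X ∧ |w.1 * y.1 - w.2.1| < u * X ∧ |w.1 * y.2 - w.2.2| < u * X}

theorem dn_le (t : ℝ) (z : ℤ) : dn t ≤ |t - z| := round_le t z

theorem dn_nonneg (t : ℝ) : 0 ≤ dn t := abs_nonneg _

theorem dn_le_half (t : ℝ) : dn t ≤ 1 / 2 := abs_sub_round t

theorem dZ_nonneg (y : ℝ × ℝ) (k : ℕ) : 0 ≤ dZ y k := le_max_of_le_left (dn_nonneg _)

theorem dZ_le_half (y : ℝ × ℝ) (k : ℕ) : dZ y k ≤ 1 / 2 := max_le (dn_le_half _) (dn_le_half _)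

theorem ball_finite (y : ℝ × ℝ) (u X : ℝ) : (Ball y u X).Finite := by
  have h1 : (Ball y u X) ⊆ ((Set.Icc (-⌈X⌉) ⌈X⌉) ×ˢ
      ((Set.Icc (-⌈u * X + X * |y.1|⌉) ⌈u * X + X * |y.1|⌉) ×ˢ
       (Set.Icc (-⌈u * X + X * |y.2|⌉) ⌈u * X + X * |y.2|⌉))) := by
    rintro ⟨k, h1, h2⟩ ⟨hk, hh1, hh2⟩
    simp only at hk hh1 hh2
    have aux : ∀ (t : ℝ) (h : ℤ), |(k : ℝ) * t - h| < u * X → -⌈u * X + X * |t|⌉ ≤ h ∧
        h ≤ ⌈u * X + X * |t|⌉ := by
      intro t h hh
      have h3 : |(k : ℝ) * t| ≤ X * |t| := by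
        rw [abs_mul]; exact mul_le_mul_of_nonneg_right hk.le (abs_nonneg _)
      have h4 : |(h : ℝ)| ≤ u * X + X * |t| := by
        have h5 : (h : ℝ) = k * t - (k * t - h) := by ring
        rw [h5]
        calc |(k : ℝ) * t - (k * t - h)| ≤ |(k : ℝ) * t| + |k * t - h| := abs_sub _ _
          _ ≤ _ := by linarith
      have h6 := (abs_le.mp h4)
      have h7 := Int.le_ceil (u * X + X * |t|)
      constructor
      · have : (-(⌈u * X + X * |t|⌉ : ℤ) : ℝ) ≤ h := by linarith [h6.1]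
        exact_mod_cast this
      · have : (h : ℝ) ≤ ⌈u * X + X * |t|⌉ := by linarith [h6.2]
        exact_mod_cast this
    refine Set.mk_mem_prod ?_ (Set.mk_mem_prod ?_ ?_)
    · have h7 := Int.le_ceil X
      have h8 := abs_lt.mp hk
      constructor
      · have : (-(⌈X⌉ : ℤ) : ℝ) ≤ k := by linarith [h8.1]
        exact_mod_cast this
      · have : (k : ℝ) ≤ ⌈X⌉ := by linarith [h8.2]
        exact_mod_cast this
    · exact aux y.1 h1 hh1
    · exact aux y.2 h2 hh2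
  exact Set.Finite.subset ((Set.finite_Icc _ _).prod ((Set.finite_Icc _ _).prod
    (Set.finite_Icc _ _))) h1

/-- the points of the body, as a finset -/
noncomputable def Bf (y : ℝ × ℝ) (u X : ℝ) : Finset L3 := (ball_finite y u X).toFinset

theorem mem_Bf {y : ℝ × ℝ} {u X : ℝ} {w : L3} : w ∈ Bf y u X ↔ w ∈ Ball y u X := by
  unfold Bf; rw [Set.Finite.mem_toFinset]

theorem mem_Ball {y : ℝ × ℝ} {u X : ℝ} {w : L3} : w ∈ Ball y u X ↔
    |(w.1 : ℝ)| < X ∧ |w.1 * y.1 - w.2.1| < u * X ∧ |w.1 * y.2 - w.2.2| < u * X := Iff.rfl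

theorem ball_mono {y : ℝ × ℝ} {u X X' : ℝ} (hu : 0 ≤ u) (h : X ≤ X') {w : L3}
    (hw : w ∈ Ball y u X) : w ∈ Ball y u X' := by
  obtain ⟨h1, h2, h3⟩ := hw
  have h4 := mul_le_mul_of_nonneg_left h hu
  exact ⟨h1.trans_le h, h2.trans_le h4, h3.trans_le h4⟩

theorem ball_add {y : ℝ × ℝ} {u X X' : ℝ} {w w' : L3}
    (hw : w ∈ Ball y u X) (hw' : w' ∈ Ball y u X') : w + w' ∈ Ball y u (X + X') := by
  obtain ⟨h1, h2, h3⟩ := hw
  obtain ⟨h1', h2', h3'⟩ := hw'
  refine ⟨?_, ?_, ?_⟩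
  · have := abs_add_le (w.1 : ℝ) w'.1
    simp only [Prod.fst_add, Int.cast_add]
    linarith
  · have := abs_add_le (w.1 * y.1 - w.2.1 : ℝ) (w'.1 * y.1 - w'.2.1)
    have h5 : (((w + w').1 : ℤ) : ℝ) * y.1 - (((w + w').2.1 : ℤ) : ℝ) =
      (w.1 * y.1 - w.2.1 : ℝ) + (w'.1 * y.1 - w'.2.1) := by
      simp only [Prod.fst_add, Prod.snd_add, Int.cast_add]; ring
    rw [h5]; linarith
  · have := abs_add_le (w.1 * y.2 - w.2.2 : ℝ) (w'.1 * y.2 - w'.2.2)
    have h5 : (((w + w').1 : ℤ) : ℝ) * y.2 - (((w + w').2.2 : ℤ) : ℝ) =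
      (w.1 * y.2 - w.2.2 : ℝ) + (w'.1 * y.2 - w'.2.2) := by
      simp only [Prod.fst_add, Prod.snd_add, Int.cast_add]; ring
    rw [h5]; linarith

theorem ball_sub {y : ℝ × ℝ} {u X X' : ℝ} {w w' : L3}
    (hw : w ∈ Ball y u X) (hw' : w' ∈ Ball y u X') : w - w' ∈ Ball y u (X + X') := by
  obtain ⟨h1, h2, h3⟩ := hw
  obtain ⟨h1', h2', h3'⟩ := hw'
  refine ⟨?_, ?_, ?_⟩
  · have := abs_sub (w.1 : ℝ) w'.1
    simp only [Prod.fst_sub, Int.cast_sub]
    linarith
  · have := abs_sub (w.1 * y.1 - w.2.1 : ℝ) (w'.1 * y.1 - w'.2.1)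
    have h5 : (((w - w').1 : ℤ) : ℝ) * y.1 - (((w - w').2.1 : ℤ) : ℝ) =
      (w.1 * y.1 - w.2.1 : ℝ) - (w'.1 * y.1 - w'.2.1) := by
      simp only [Prod.fst_sub, Prod.snd_sub, Int.cast_sub]; ring
    rw [h5]; linarith
  · have := abs_sub (w.1 * y.2 - w.2.2 : ℝ) (w'.1 * y.2 - w'.2.2)
    have h5 : (((w - w').1 : ℤ) : ℝ) * y.2 - (((w - w').2.2 : ℤ) : ℝ) =
      (w.1 * y.2 - w.2.2 : ℝ) - (w'.1 * y.2 - w'.2.2) := by
      simp only [Prod.fst_sub, Prod.snd_sub, Int.cast_sub]; ring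
    rw [h5]; linarith

/-- the norm of the vector of a denominator -/
noncomputable def nv (y : ℝ × ℝ) (u : ℝ) (k : ℕ) : ℝ := max (k : ℝ) (dZ y k / u)

theorem smul_vec_mem {y : ℝ × ℝ} {u X : ℝ} (hu : 0 < u) (k : ℕ) (j : ℤ) :
    j • vec y k ∈ Ball y u X ↔ |(j : ℝ)| * nv y u k < X := by
  have e1 : (((j • vec y k).1 : ℤ) : ℝ) = j * k := by simp [vec]
  have e2 : (((j • vec y k).1 : ℤ) : ℝ) * y.1 - (((j • vec y k).2.1 : ℤ) : ℝ) =
      j * (k * y.1 - round (k * y.1)) := by simp [vec]; ring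
  have e3 : (((j • vec y k).1 : ℤ) : ℝ) * y.2 - (((j • vec y k).2.2 : ℤ) : ℝ) =
      j * (k * y.2 - round (k * y.2)) := by simp [vec]; ring
  rw [mem_Ball, e2, e3, e1, abs_mul, abs_mul, abs_mul, Nat.abs_cast]
  have hj : 0 ≤ |(j : ℝ)| := abs_nonneg _
  unfold nv dZ
  rw [← max_div_div_right hu.le, mul_max_of_nonneg _ _ hj, mul_max_of_nonneg _ _ hj, max_lt_iff,
    max_lt_iff, ← mul_div_assoc, ← mul_div_assoc, div_lt_iff₀ hu, div_lt_iff₀ hu, mul_comm X u]
  rfl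

/-- the linear map with kernel the line of `vec y k` -/
def ph (v : L3) : L3 →+ ℤ × ℤ where
  toFun w := (v.1 * w.2.1 - w.1 * v.2.1, v.1 * w.2.2 - w.1 * v.2.2)
  map_zero' := by simp
  map_add' := by
    intro a b
    simp only [Prod.fst_add, Prod.snd_add, Prod.mk_add_mk, Prod.mk.injEq]
    constructor <;> ring

theorem ph_apply (v w : L3) : ph v w = (v.1 * w.2.1 - w.1 * v.2.1, v.1 * w.2.2 - w.1 * v.2.2) := rfl

/-- the integer vectors on the line of a record are integer multiples of its vector -/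
theorem ker_ph {y : ℝ × ℝ} {k : ℕ} (hk : Rec y k) {w : L3} (hw : ph (vec y k) w = 0) :
    ∃ j : ℤ, w = j • vec y k := by
  obtain ⟨hk1, hk2⟩ := hk
  have hk0 : (0 : ℤ) < k := by exact_mod_cast hk1
  obtain ⟨c, h1, h2⟩ := w
  rw [ph_apply, Prod.mk_eq_zero] at hw
  simp only [vec] at hw
  set a1 := round ((k : ℝ) * y.1) with ha1
  set a2 := round ((k : ℝ) * y.2) with ha2
  obtain ⟨hw1, hw2⟩ := hw
  set j := c / (k : ℤ) with hj
  set r := c % (k : ℤ) with hr
  have hc : c = k * j + r := (Int.mul_ediv_add_emod c k).symm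
  have hr0 : 0 ≤ r := Int.emod_nonneg _ hk0.ne'
  have hr1 : r < k := Int.emod_lt_of_pos _ hk0
  have e1 : (k : ℤ) * (h1 - j * a1) = r * a1 := by rw [hc] at hw1; linear_combination hw1
  have e2 : (k : ℤ) * (h2 - j * a2) = r * a2 := by rw [hc] at hw2; linear_combination hw2
  have hrz : r = 0 := by
    by_contra hne
    have hrpos : 0 < r := lt_of_le_of_ne hr0 (Ne.symm hne)
    obtain ⟨m, hm⟩ := Int.eq_ofNat_of_zero_le hr0
    have hm1 : 1 ≤ m := by
      have : (0 : ℤ) < m := by rw [hm] at hrpos; exact_mod_cast hrpos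
      exact_mod_cast this
    have hm2 : m < k := by rw [hm] at hr1; exact_mod_cast hr1
    have hlt := hk2 m hm1 hm2
    have hkR : (0 : ℝ) < k := by exact_mod_cast hk1
    have aux : ∀ (t : ℝ) (h a : ℤ), (k : ℤ) * h = r * a → |(k : ℝ) * t - a| ≤ dZ y k →
        dn (m * t) ≤ dZ y k := by
      intro t h a he hle
      refine (dn_le _ h).trans ?_
      have h3 : (k : ℝ) * h = m * a := by
        have := congrArg (fun z : ℤ => (z : ℝ)) he
        push_cast at this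
        rw [hm] at this
        simpa using this
      have h4 : (m : ℝ) * t - h = (m / k) * (k * t - a) := by
        field_simp
        linear_combination (-1 : ℝ) * h3
      rw [h4, abs_mul, abs_of_nonneg (by positivity)]
      have h5 : (m : ℝ) / k ≤ 1 := by
        rw [div_le_one hkR]; exact_mod_cast hm2.le
      calc (m : ℝ) / k * |k * t - a| ≤ 1 * |k * t - a| :=
            mul_le_mul_of_nonneg_right h5 (abs_nonneg _)
        _ ≤ _ := by rw [one_mul]; exact hle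
    have g1 := aux y.1 _ _ e1 (le_max_left _ _)
    have g2 := aux y.2 _ _ e2 (le_max_right _ _)
    exact absurd (max_le g1 g2) (not_le.mpr hlt)
  rw [hrz] at e1 e2 hc
  simp only [zero_mul] at e1 e2
  have f1 : h1 = j * a1 := by
    have := (mul_eq_zero.mp e1).resolve_left hk0.ne'
    linarith
  have f2 : h2 = j * a2 := by
    have := (mul_eq_zero.mp e2).resolve_left hk0.ne'
    linarith
  refine ⟨j, ?_⟩
  simp only [vec, Prod.smul_mk, smul_eq_mul, Prod.mk.injEq]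
  exact ⟨by rw [hc]; ring, f1, f2⟩

end Pool.Agent.U14.IK
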