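import Mathlib
import Pool.Agent.U14.IK.Geo

/-!
# Growth of the number of points
-/

set_option autoImplicit false

open Finset
open scoped Pointwise

namespace Pool.Agent.U14.IK

/-- Cauchy-Davenport, three doublings -/
theorem eight_fold (S : Finset (ℤ × ℤ)) (hS : S.Nonempty) :
    8 * S.card ≤ ((S + S + (S + S)) + (S + S + (S + S))).card + 7 := by
  have h2 : (S + S).Nonempty := hS.add hS
  have h4 : (S + S + (S + S)).Nonempty := h2.add h2
  have a1 := cauchy_davenport_of_isAddTorsionFree hS hS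
  have a2 := cauchy_davenport_of_isAddTorsionFree h2 h2
  have a3 := cauchy_davenport_of_isAddTorsionFree h4 h4
  have c1 : 1 ≤ S.card := hS.card_pos
  omega

/-- number of integers `j` with `|j| ρ < X` -/
theorem card_ints_lower (z : ℝ) (hz : 0 < z) (J : Finset ℤ) (hJ : ∀ j : ℤ, |(j : ℝ)| < z → j ∈ J) :
    2 * z - 1 ≤ J.card := by
  set m : ℕ := ⌈z⌉₊ with hm
  have hm1 : 1 ≤ m := Nat.one_le_ceil_iff.mpr hz
  have h1 : Finset.Ioo (-(m : ℤ)) m ⊆ J := by
    intro j hj
    rw [Finset.mem_Ioo] at hj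
    apply hJ
    have h2 : |j| ≤ (m : ℤ) - 1 := abs_le.mpr ⟨by omega, by omega⟩
    have h3 : |(j : ℝ)| ≤ (m : ℝ) - 1 := by
      have : ((|j| : ℤ) : ℝ) ≤ (((m : ℤ) - 1 : ℤ) : ℝ) := by exact_mod_cast h2
      simpa using this
    have h4 := Nat.ceil_lt_add_one hz.le
    linarith
  have h2 := Finset.card_le_card h1
  rw [Int.card_Ioo] at h2
  have h3 : ((m : ℤ) - (-(m : ℤ)) - 1).toNat = 2 * m - 1 := by omega
  rw [h3] at h2
  have h4 : (2 * (m : ℝ) - 1) ≤ J.card := by
    have h5 : ((2 * m - 1 : ℕ) : ℝ) ≤ J.card := by exact_mod_cast h2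
    rwa [Nat.cast_sub (by omega), Nat.cast_mul, Nat.cast_ofNat, Nat.cast_one] at h5
  have h5 := Nat.le_ceil z
  linarith

/-- a set of integers with differences below `D` has at most `D + 1` elements -/
theorem card_ints_upper (D : ℝ) (J : Finset ℤ) (hD : 0 ≤ D)
    (hJ : ∀ j ∈ J, ∀ j' ∈ J, (j : ℝ) - j' ≤ D) : (J.card : ℝ) ≤ D + 1 := by
  rcases J.eq_empty_or_nonempty with h | h
  · rw [h]; simp; linarith
  · have h1 : J ⊆ Finset.Icc (J.min' h) (J.max' h) := fun j hj =>
      Finset.mem_Icc.mpr ⟨J.min'_le j hj, J.le_max' j hj⟩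
    have h2 := Finset.card_le_card h1
    rw [Int.card_Icc] at h2
    have h3 := hJ _ (J.max'_mem h) _ (J.min'_mem h)
    have h4 : J.min' h ≤ J.max' h := J.min'_le_max' h
    have h5 : ((J.max' h + 1 - J.min' h).toNat : ℤ) = J.max' h + 1 - J.min' h :=
      Int.toNat_of_nonneg (by omega)
    have h6 : (J.card : ℝ) ≤ ((J.max' h + 1 - J.min' h).toNat : ℝ) := by exact_mod_cast h2
    have h7 : ((J.max' h + 1 - J.min' h).toNat : ℝ) = J.max' h + 1 - J.min' h := by
      exact_mod_cast congrArg (fun z : ℤ => (z : ℝ)) h5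
    linarith

theorem ph_smul_vec (y : ℝ × ℝ) (k : ℕ) (j : ℤ) : ph (vec y k) (j • vec y k) = 0 := by
  rw [map_zsmul]
  have : ph (vec y k) (vec y k) = 0 := by
    rw [ph_apply, Prod.mk_eq_zero]; constructor <;> ring
  rw [this, smul_zero]

/-- **Growth.** -/
theorem growth {y : ℝ × ℝ} {u X : ℝ} (hu : 0 < u) {k : ℕ} (hk : Rec y k)
    (hkX : nv y u k < X) {v : L3} (hv : v ∈ Ball y u X) (hv0 : ph (vec y k) v ≠ 0) :
    24 * ((Bf y u X).card : ℝ) ≤ (Bf y u (16 * X)).card := by
  classical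
  set v0 := vec y k with hv0def
  set ν := nv y u k with hν
  have hk1 : (1 : ℝ) ≤ k := by exact_mod_cast hk.1
  have hνpos : 0 < ν := lt_of_lt_of_le (by linarith) (le_max_left _ _)
  have hX : 0 < X := hνpos.trans hkX
  set S : Finset (ℤ × ℤ) := (Bf y u X).image (ph v0) with hS
  set m := S.card with hm
  have h0mem : (0 : L3) ∈ Bf y u X := by
    rw [mem_Bf, mem_Ball]
    simp only [Prod.fst_zero, Prod.snd_zero, Int.cast_zero, abs_zero, zero_mul, sub_zero]
    exact ⟨hX, by positivity, by positivity⟩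
  have hvneg : -v ∈ Bf y u X := by
    rw [mem_Bf]
    obtain ⟨a, b, c⟩ := hv
    refine ⟨by simpa using a, ?_, ?_⟩
    · have : (((-v).1 : ℤ) : ℝ) * y.1 - (((-v).2.1 : ℤ) : ℝ) = -(v.1 * y.1 - v.2.1) := by
        simp; ring
      rw [this, abs_neg]; exact b
    · have : (((-v).1 : ℤ) : ℝ) * y.2 - (((-v).2.2 : ℤ) : ℝ) = -(v.1 * y.2 - v.2.2) := by
        simp; ring
      rw [this, abs_neg]; exact c
  have hSne : S.Nonempty := ⟨_, Finset.mem_image_of_mem _ h0mem⟩
  -- at least three classes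
  have hm3 : 3 ≤ m := by
    have h1 : ({0, ph v0 v, -(ph v0 v)} : Finset (ℤ × ℤ)) ⊆ S := by
      intro z hz
      simp only [Finset.mem_insert, Finset.mem_singleton] at hz
      rcases hz with h | h | h
      · rw [h, ← map_zero (ph v0)]; exact Finset.mem_image_of_mem _ h0mem
      · rw [h]; exact Finset.mem_image_of_mem _ (mem_Bf.mpr hv)
      · rw [h, ← map_neg]; exact Finset.mem_image_of_mem _ hvneg
    have h2 : ({0, ph v0 v, -(ph v0 v)} : Finset (ℤ × ℤ)).card = 3 := by
      have hne : ph v0 v ≠ -(ph v0 v) := by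
        intro h
        have h3 : (2 : ℕ) • ph v0 v = 0 := by
          rw [two_nsmul]; nth_rewrite 2 [h]; simp
        rcases smul_eq_zero.mp h3 with h4 | h4
        · norm_num at h4
        · exact hv0 h4
      rw [Finset.card_insert_of_notMem, Finset.card_insert_of_notMem, Finset.card_singleton]
      · simpa using hne
      · simp only [Finset.mem_insert, Finset.mem_singleton, not_or]
        refine ⟨fun h => hv0 h.symm, fun h => hv0 ?_⟩
        rw [eq_comm, neg_eq_zero] at h
        exact h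
    rw [← h2]; exact Finset.card_le_card h1
  -- upper bound
  have hup : ((Bf y u X).card : ℝ) ≤ m * (2 * X / ν + 1) := by
    have h1 : ∀ a ∈ S, (((Bf y u X).filter (fun w => ph v0 w = a)).card : ℝ) ≤ 2 * X / ν + 1 := by
      intro a ha
      obtain ⟨w0, hw0, hw0a⟩ := Finset.mem_image.mp ha
      set F := (Bf y u X).filter (fun w => ph v0 w = a) with hF
      have hex : ∀ w ∈ F, ∃ j : ℤ, w = w0 + j • v0 := by
        intro w hw
        rw [hF, Finset.mem_filter] at hw
        have h2 : ph v0 (w - w0) = 0 := by rw [map_sub, hw.2, hw0a, sub_self]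
        obtain ⟨j, hj⟩ := ker_ph hk h2
        exact ⟨j, by rw [← hj]; abel⟩
      choose! f hf using hex
      have hinj : Set.InjOn f F := by
        intro w hw w' hw' h
        rw [hf w hw, hf w' hw', h]
      have hcard : (F.image f).card = F.card := Finset.card_image_of_injOn hinj
      rw [← hcard]
      apply card_ints_upper _ _ (by positivity)
      intro j hj j' hj'
      obtain ⟨w, hw, rfl⟩ := Finset.mem_image.mp hj
      obtain ⟨w', hw', rfl⟩ := Finset.mem_image.mp hj'
      have hwB : w ∈ Ball y u X := mem_Bf.mp (Finset.mem_filter.mp hw).1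
      have hwB' : w' ∈ Ball y u X := mem_Bf.mp (Finset.mem_filter.mp hw').1
      have h3 : w - w' = (f w - f w') • v0 := by
        have e1 := hf w hw
        have e2 := hf w' hw'
        rw [sub_smul]
        nth_rewrite 1 [e1]
        nth_rewrite 1 [e2]
        abel
      have h4 := ball_sub hwB hwB'
      rw [h3, hv0def, smul_vec_mem hu] at h4
      rw [le_div_iff₀ hνpos]
      have h5 : ((f w : ℝ) - f w') ≤ |(((f w - f w' : ℤ)) : ℝ)| := by
        push_cast; exact le_abs_self _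
      have h6 := mul_le_mul_of_nonneg_right h5 hνpos.le
      linarith
    have h2 : (Bf y u X).card = ∑ a ∈ S, ((Bf y u X).filter (fun w => ph v0 w = a)).card :=
      Finset.card_eq_sum_card_fiberwise (fun w hw => Finset.mem_image_of_mem _ hw)
    rw [h2]
    push_cast
    calc ∑ a ∈ S, (((Bf y u X).filter (fun w => ph v0 w = a)).card : ℝ)
        ≤ ∑ a ∈ S, (2 * X / ν + 1) := Finset.sum_le_sum h1
      _ = _ := by rw [Finset.sum_const, nsmul_eq_mul]
  -- lower bound
  set S8 := ((S + S + (S + S)) + (S + S + (S + S))) with hS8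
  have hS8card : 8 * m ≤ S8.card + 7 := eight_fold S hSne
  have hrep1 : ∀ a ∈ S, ∃ w ∈ Ball y u X, ph v0 w = a := by
    intro a ha
    obtain ⟨w, hw, h⟩ := Finset.mem_image.mp ha
    exact ⟨w, mem_Bf.mp hw, h⟩
  have hrepadd : ∀ (P : Finset (ℤ × ℤ)) (Z : ℝ), (∀ a ∈ P, ∃ w ∈ Ball y u Z, ph v0 w = a) →
      ∀ a ∈ P + P, ∃ w ∈ Ball y u (Z + Z), ph v0 w = a := by
    intro P Z hP a ha
    obtain ⟨b, hb, c, hc, rfl⟩ := Finset.mem_add.mp ha
    obtain ⟨w, hw, h⟩ := hP b hb
    obtain ⟨w', hw', h'⟩ := hP c hc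
    exact ⟨w + w', ball_add hw hw', by rw [map_add, h, h']⟩
  have hrep8 : ∀ a ∈ S8, ∃ w, w ∈ Ball y u (8 * X) ∧ ph v0 w = a := by
    have := hrepadd _ _ (hrepadd _ _ (hrepadd _ _ hrep1))
    intro a ha
    obtain ⟨w, hw, h⟩ := this a ha
    refine ⟨w, ?_, h⟩
    have e : X + X + (X + X) + (X + X + (X + X)) = 8 * X := by ring
    rwa [e] at hw
  choose! rep hrepB hrepph using hrep8
  set J : Finset ℤ := (Finset.Icc (-⌈8 * X / ν⌉) ⌈8 * X / ν⌉).filter
    (fun j : ℤ => |(j : ℝ)| * ν < 8 * X) with hJ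
  have hJcard : 2 * (8 * X / ν) - 1 ≤ (J.card : ℝ) := by
    apply card_ints_lower _ (by positivity)
    intro j hj
    rw [hJ, Finset.mem_filter, Finset.mem_Icc]
    have h1 := Int.le_ceil (8 * X / ν)
    have h2 := abs_lt.mp hj
    refine ⟨⟨?_, ?_⟩, ?_⟩
    · have : (-(⌈8 * X / ν⌉ : ℤ) : ℝ) ≤ j := by linarith [h2.1]
      exact_mod_cast this
    · have : (j : ℝ) ≤ ⌈8 * X / ν⌉ := by linarith [h2.2]
      exact_mod_cast this
    · rwa [← lt_div_iff₀ hνpos]
  have hlow : S8.card * J.card ≤ (Bf y u (16 * X)).card := by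
    rw [← Finset.card_product]
    apply Finset.card_le_card_of_injOn (fun p : (ℤ × ℤ) × ℤ => rep p.1 + p.2 • v0)
    · rintro ⟨a, j⟩ hp
      rw [Finset.mem_coe, Finset.mem_product] at hp
      simp only at hp
      rw [Finset.mem_coe, mem_Bf]
      have h1 := hrepB a hp.1
      have h2 : j • v0 ∈ Ball y u (8 * X) := by
        rw [hv0def, smul_vec_mem hu]
        exact (Finset.mem_filter.mp hp.2).2
      have h3 := ball_add h1 h2
      have e : 8 * X + 8 * X = 16 * X := by ring
      rwa [e] at h3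
    · rintro ⟨a, j⟩ hp ⟨a', j'⟩ hp' h
      rw [Finset.mem_coe, Finset.mem_product] at hp hp'
      simp only at hp hp' h
      have h1 : a = a' := by
        have := congrArg (ph v0) h
        rw [map_add, map_add, hv0def, ph_smul_vec, ph_smul_vec, add_zero, add_zero] at this
        rw [← hrepph a hp.1, ← hrepph a' hp'.1]
        exact this
      subst h1
      have h2 : j • v0 = j' • v0 := add_left_cancel h
      have h3 : j * (k : ℤ) = j' * k := by
        have := congrArg (fun w : L3 => w.1) h2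
        simpa [hv0def, vec] using this
      have hk0 : (k : ℤ) ≠ 0 := by
        have := hk.1
        omega
      rw [Prod.mk.injEq]
      exact ⟨rfl, mul_right_cancel₀ hk0 h3⟩
  have hlowR : (S8.card : ℝ) * J.card ≤ (Bf y u (16 * X)).card := by exact_mod_cast hlow
  have hS8R : 8 * (m : ℝ) - 7 ≤ S8.card := by
    have : (8 * (m : ℝ)) ≤ S8.card + 7 := by exact_mod_cast hS8card
    linarith
  have hmR : (3 : ℝ) ≤ m := by exact_mod_cast hm3
  set ρ := X / ν with hρ
  have hρ1 : 1 < ρ := by rw [hρ, one_lt_div hνpos]; exact hkX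
  have e1 : 2 * X / ν = 2 * ρ := by rw [hρ]; ring
  have e2 : 8 * X / ν = 8 * ρ := by rw [hρ]; ring
  rw [e1] at hup
  rw [e2] at hJcard
  have h5 : (8 * (m : ℝ) - 7) * (2 * (8 * ρ) - 1) ≤ S8.card * J.card :=
    mul_le_mul hS8R hJcard (by linarith) (by positivity)
  nlinarith [mul_nonneg (sub_nonneg.mpr hmR) (sub_nonneg.mpr hρ1.le)]

end Pool.Agent.U14.IK
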