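import Mathlib
import Pool.Agent.U14.IK.Growth

/-!
# Counting: residue classes, records
-/

set_option autoImplicit false

open Finset

namespace Pool.Agent.U14.IK

/-- a set of integers whose differences are divisible by `d` and at most `D` -/
theorem card_modeq (D : ℝ) (hD : 0 ≤ D) (d : ℕ) (hd : 1 ≤ d) (J : Finset ℤ)
    (hJ : ∀ j ∈ J, ∀ j' ∈ J, (j : ℝ) - j' ≤ D) (hJd : ∀ j ∈ J, ∀ j' ∈ J, (d : ℤ) ∣ j - j') :
    (J.card : ℝ) ≤ D / d + 1 := by
  classical
  have hdR : (0 : ℝ) < d := by exact_mod_cast hd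
  rcases J.eq_empty_or_nonempty with h | ⟨j0, hj0⟩
  · rw [h]; simp; positivity
  · have hdv : ∀ j ∈ J, ∃ c : ℤ, j = j0 + d * c := by
      intro j hj
      obtain ⟨c, hc⟩ := hJd j hj j0 hj0
      exact ⟨c, by linarith⟩
    choose! f hf using hdv
    have hinj : Set.InjOn f J := by
      intro a ha b hb h
      rw [hf a ha, hf b hb, h]
    rw [← Finset.card_image_of_injOn hinj]
    apply card_ints_upper _ _ (by positivity)
    intro a ha b hb
    obtain ⟨j, hj, rfl⟩ := Finset.mem_image.mp ha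
    obtain ⟨j', hj', rfl⟩ := Finset.mem_image.mp hb
    rw [le_div_iff₀ hdR]
    have h1 := hJ j hj j' hj'
    have h2 : (j : ℝ) = j0 + d * f j := by exact_mod_cast hf j hj
    have h3 : (j' : ℝ) = j0 + d * f j' := by exact_mod_cast hf j' hj'
    rw [h2, h3] at h1
    linarith

/-- two records in a dyadic block are not congruent modulo two -/
theorem rec_not_congr {y : ℝ × ℝ} {K k1 k2 : ℕ} (h1 : Rec y k1) (h2 : Rec y k2) (hlt : k1 < k2)
    (hK : K ≤ k1) (hK2 : k2 < 2 * K)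
    (hc : ((vec y k1).1 : ZMod 2) = (vec y k2).1 ∧ ((vec y k1).2.1 : ZMod 2) = (vec y k2).2.1 ∧
      ((vec y k1).2.2 : ZMod 2) = (vec y k2).2.2) : False := by
  have h4 : dZ y k2 < dZ y k1 := h2.2 k1 h1.1 hlt
  obtain ⟨c1, c2, c3⟩ := hc
  simp only [vec] at c1 c2 c3
  have aux : ∀ a b : ℤ, (a : ZMod 2) = b → ∃ c : ℤ, b - a = 2 * c := by
    intro a b h
    have := (ZMod.intCast_eq_intCast_iff a b 2).mp h
    obtain ⟨c, hc⟩ := this.dvd
    exact ⟨c, by exact_mod_cast hc⟩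
  obtain ⟨m, hm⟩ := aux _ _ c1
  obtain ⟨g1, hg1⟩ := aux _ _ c2
  obtain ⟨g2, hg2⟩ := aux _ _ c3
  have hm0 : 0 < m := by omega
  obtain ⟨m', rfl⟩ := Int.eq_ofNat_of_zero_le hm0.le
  have hm1 : 1 ≤ m' := by
    have : (0 : ℤ) < m' := hm0
    omega
  have hmk : m' < k1 := by
    have : (k2 : ℤ) - k1 = 2 * m' := hm
    omega
  have hR : (k2 : ℝ) - k1 = 2 * m' := by exact_mod_cast hm
  have aux2 : ∀ (t : ℝ) (g : ℤ), (round ((k2 : ℝ) * t) - round ((k1 : ℝ) * t) : ℤ) = 2 * g →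
      dn (k1 * t) ≤ dZ y k1 → dn (k2 * t) ≤ dZ y k2 → dn (m' * t) < dZ y k1 := by
    intro t g hg ha hb
    have hgR : ((round ((k2 : ℝ) * t) : ℤ) : ℝ) - round ((k1 : ℝ) * t) = 2 * g := by
      exact_mod_cast congrArg (fun z : ℤ => (z : ℝ)) hg
    have e : (m' : ℝ) * t - g = ((k2 * t - round ((k2 : ℝ) * t)) -
        (k1 * t - round ((k1 : ℝ) * t))) / 2 := by
      linear_combination (-(1 : ℝ) / 2) * t * hR + (1 / 2) * hgR
    calc dn (m' * t) ≤ |(m' : ℝ) * t - g| := dn_le _ _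
      _ = |(k2 * t - round ((k2 : ℝ) * t)) - (k1 * t - round ((k1 : ℝ) * t))| / 2 := by
          rw [e, abs_div]; norm_num
      _ ≤ (dn (k2 * t) + dn (k1 * t)) / 2 := by
          apply div_le_div_of_nonneg_right _ (by norm_num)
          exact abs_sub _ _
      _ ≤ (dZ y k2 + dZ y k1) / 2 := by linarith
      _ < dZ y k1 := by linarith
  have g1' := aux2 y.1 g1 hg1 (le_max_left _ _) (le_max_left _ _)
  have g2' := aux2 y.2 g2 hg2 (le_max_right _ _) (le_max_right _ _)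
  have h5 : dZ y m' < dZ y k1 := max_lt g1' g2'
  have h6 := h1.2 m' hm1 hmk
  linarith

/-- at most eight records in a dyadic block -/
theorem rec_block {y : ℝ × ℝ} (K : ℕ) (T : Finset ℕ)
    (hT : ∀ k ∈ T, Rec y k ∧ K ≤ k ∧ k < 2 * K) : T.card ≤ 8 := by
  classical
  set f : ℕ → ZMod 2 × ZMod 2 × ZMod 2 := fun k =>
    (((vec y k).1 : ZMod 2), ((vec y k).2.1 : ZMod 2), ((vec y k).2.2 : ZMod 2)) with hf
  have hinj : Set.InjOn f T := by
    intro a ha b hb h
    simp only [hf, Prod.mk.injEq] at h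
    rcases lt_trichotomy a b with hlt | heq | hgt
    · exact (rec_not_congr (hT a ha).1 (hT b hb).1 hlt (hT a ha).2.1 (hT b hb).2.2 h).elim
    · exact heq
    · exact (rec_not_congr (hT b hb).1 (hT a ha).1 hgt (hT b hb).2.1 (hT a ha).2.2
        ⟨h.1.symm, h.2.1.symm, h.2.2.symm⟩).elim
  have h1 := Finset.card_le_card_of_injOn f (s := T) (t := Finset.univ) (fun _ _ => Finset.mem_univ _) hinj
  have h2 : (Finset.univ : Finset (ZMod 2 × ZMod 2 × ZMod 2)).card = 8 := by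
    rw [Finset.card_univ, Fintype.card_prod, Fintype.card_prod, ZMod.card]
  rwa [h2] at h1

theorem rec_log {y : ℝ × ℝ} (T : Finset ℕ) (hT : ∀ k ∈ T, Rec y k) (j : ℕ) :
    (T.filter (fun k => Nat.log 2 k = j)).card ≤ 8 := by
  apply rec_block (y := y) (2 ^ j)
  intro k hk
  rw [Finset.mem_filter] at hk
  have h1 := hT k hk.1
  have hk0 : k ≠ 0 := by have := h1.1; omega
  refine ⟨h1, ?_, ?_⟩
  · rw [← hk.2]; exact Nat.pow_log_le_self 2 hk0
  · have := Nat.lt_pow_succ_log_self (b := 2) (by norm_num) k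
    rw [hk.2, pow_succ] at this
    linarith

/-- the sum of the inverses of the records -/
theorem rec_sum {y : ℝ × ℝ} (T : Finset ℕ) (hT : ∀ k ∈ T, Rec y k) :
    ∑ k ∈ T, (1 : ℝ) / k ≤ 16 := by
  classical
  have h0 : ∀ j : ℕ, ∑ k ∈ T.filter (fun k => Nat.log 2 k = j), (1 : ℝ) / k ≤ 8 * (1 / 2) ^ j := by
    intro j
    calc ∑ k ∈ T.filter (fun k => Nat.log 2 k = j), (1 : ℝ) / k
        ≤ ∑ k ∈ T.filter (fun k => Nat.log 2 k = j), (1 / 2 : ℝ) ^ j := by
          apply Finset.sum_le_sum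
          intro k hk
          rw [Finset.mem_filter] at hk
          have hk0 : k ≠ 0 := by have := (hT k hk.1).1; omega
          have h1 : 2 ^ j ≤ k := by rw [← hk.2]; exact Nat.pow_log_le_self 2 hk0
          have h2 : (2 : ℝ) ^ j ≤ k := by exact_mod_cast h1
          rw [div_pow, one_pow]
          exact one_div_le_one_div_of_le (by positivity) h2
      _ = (T.filter (fun k => Nat.log 2 k = j)).card * (1 / 2 : ℝ) ^ j := by
          rw [Finset.sum_const, nsmul_eq_mul]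
      _ ≤ _ := by
          apply mul_le_mul_of_nonneg_right _ (by positivity)
          exact_mod_cast rec_log T hT j
  have h1 : ∑ k ∈ T, (1 : ℝ) / k = ∑ j ∈ T.image (Nat.log 2),
      ∑ k ∈ T.filter (fun k => Nat.log 2 k = j), (1 : ℝ) / k :=
    (Finset.sum_fiberwise_of_maps_to (fun k hk => Finset.mem_image_of_mem _ hk) _).symm
  rw [h1]
  calc ∑ j ∈ T.image (Nat.log 2), ∑ k ∈ T.filter (fun k => Nat.log 2 k = j), (1 : ℝ) / k
      ≤ ∑ j ∈ T.image (Nat.log 2), 8 * (1 / 2 : ℝ) ^ j := Finset.sum_le_sum fun j _ => h0 j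
    _ = 8 * ∑ j ∈ T.image (Nat.log 2), (1 / 2 : ℝ) ^ j := by rw [Finset.mul_sum]
    _ ≤ 8 * 2 := by
        apply mul_le_mul_of_nonneg_left _ (by norm_num)
        have := Summable.sum_le_tsum (T.image (Nat.log 2)) (fun j _ => by positivity)
          (summable_geometric_two)
        rw [tsum_geometric_two] at this
        exact this
    _ = 16 := by norm_num

/-- the number of records up to `N` -/
theorem rec_card {y : ℝ × ℝ} (N : ℕ) (T : Finset ℕ) (hT : ∀ k ∈ T, Rec y k ∧ k ≤ N) :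
    T.card ≤ 8 * (Nat.log 2 N + 1) := by
  classical
  have h1 : T.card = ∑ j ∈ T.image (Nat.log 2), (T.filter (fun k => Nat.log 2 k = j)).card :=
    Finset.card_eq_sum_card_fiberwise (fun k hk => Finset.mem_image_of_mem _ hk)
  rw [h1]
  calc ∑ j ∈ T.image (Nat.log 2), (T.filter (fun k => Nat.log 2 k = j)).card
      ≤ ∑ j ∈ T.image (Nat.log 2), 8 := Finset.sum_le_sum fun j _ => rec_log T (fun k hk => (hT k hk).1) j
    _ = (T.image (Nat.log 2)).card * 8 := by rw [Finset.sum_const, smul_eq_mul]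
    _ ≤ (Nat.log 2 N + 1) * 8 := by
        apply Nat.mul_le_mul_right
        have h2 : T.image (Nat.log 2) ⊆ range (Nat.log 2 N + 1) := by
          intro j hj
          obtain ⟨k, hk, rfl⟩ := Finset.mem_image.mp hj
          rw [Finset.mem_range]
          have := Nat.log_mono_right (b := 2) (hT k hk).2
          omega
        have := Finset.card_le_card h2
        rwa [Finset.card_range] at this
    _ = _ := by ring

theorem log_small (ε : ℝ) (hε : 0 < ε) : ∃ q0 : ℕ, ∀ q : ℕ, q0 ≤ q → (Nat.log 2 q + 1 : ℝ) ≤ ε * q := by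
  have h1 : ∀ j : ℕ, (j + 1) ^ 2 ≤ 4 * 2 ^ j := by
    have h : ∀ j : ℕ, 3 ≤ j → (j + 1) ^ 2 ≤ 2 * 2 ^ j := by
      intro j hj
      induction j, hj using Nat.le_induction with
      | base => norm_num
      | succ j hj ih => rw [pow_succ 2 j]; nlinarith
    intro j
    rcases Nat.lt_or_ge j 3 with hj | hj
    · interval_cases j <;> norm_num
    · have := h j hj; omega
  refine ⟨⌈4 / ε ^ 2⌉₊ + 1, fun q hq => ?_⟩
  have hq0 : q ≠ 0 := by omega
  have h2 : (2 : ℕ) ^ Nat.log 2 q ≤ q := Nat.pow_log_le_self 2 hq0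
  have h3 : (Nat.log 2 q + 1) ^ 2 ≤ 4 * q := (h1 _).trans (by omega)
  have h4 : ((Nat.log 2 q + 1 : ℝ)) ^ 2 ≤ 4 * q := by exact_mod_cast h3
  have h5 : 4 / ε ^ 2 ≤ q := by
    have := Nat.le_ceil (4 / ε ^ 2)
    have h6 : ((⌈4 / ε ^ 2⌉₊ : ℕ) : ℝ) ≤ q := by
      have : ⌈4 / ε ^ 2⌉₊ ≤ q := by omega
      exact_mod_cast this
    linarith
  rw [div_le_iff₀ (by positivity)] at h5
  have hqR : (0 : ℝ) ≤ q := Nat.cast_nonneg q
  have h6 : ((Nat.log 2 q + 1 : ℝ)) ^ 2 ≤ (ε * q) ^ 2 := by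
    calc ((Nat.log 2 q + 1 : ℝ)) ^ 2 ≤ 4 * q := h4
      _ ≤ (q * ε ^ 2) * q := mul_le_mul_of_nonneg_right h5 hqR
      _ = _ := by ring
  exact (pow_le_pow_iff_left₀ (by positivity) (by positivity) (by norm_num)).mp h6

end Pool.Agent.U14.IK
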