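import Mathlib
import Pool.Agent.U14.IK.Growth

/-!
# The sum over the scales for a fixed level
-/

set_option autoImplicit false

open Finset
open scoped Pointwise

namespace Pool.Agent.U14.IK

theorem card_Bf_le {y : ℝ × ℝ} {u X : ℝ} (hX : 0 ≤ X) (hu : u * X ≤ 1 / 2) :
    ((Bf y u X).card : ℝ) ≤ 2 * X + 1 := by
  classical
  have hinj : Set.InjOn (fun w : L3 => w.1) (Bf y u X : Set L3) := by
    rintro ⟨k, h1, h2⟩ hw ⟨k', h1', h2'⟩ hw' h
    simp only at h
    subst h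
    rw [Finset.mem_coe, mem_Bf, mem_Ball] at hw hw'
    simp only at hw hw'
    have aux : ∀ (t : ℝ) (a b : ℤ), |(k : ℝ) * t - a| < u * X → |(k : ℝ) * t - b| < u * X → a = b := by
      intro t a b ha hb
      have h3 : |((a - b : ℤ) : ℝ)| < 1 := by
        have e : (((a - b : ℤ)) : ℝ) = (k * t - b) - (k * t - a) := by push_cast; ring
        rw [e]
        have := abs_sub ((k : ℝ) * t - b) (k * t - a)
        linarith
      have h4 : |a - b| < 1 := by
        have : ((|a - b| : ℤ) : ℝ) < 1 := by rw [Int.cast_abs]; exact h3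
        exact_mod_cast this
      have := Int.abs_lt_one_iff.mp h4
      omega
    rw [aux y.1 _ _ hw.2.1 hw'.2.1, aux y.2 _ _ hw.2.2 hw'.2.2]
  rw [← Finset.card_image_of_injOn hinj]
  apply card_ints_upper _ _ (by linarith)
  intro j hj j' hj'
  obtain ⟨w, hw, rfl⟩ := Finset.mem_image.mp hj
  obtain ⟨w', hw', rfl⟩ := Finset.mem_image.mp hj'
  have h1 := (mem_Ball.mp (mem_Bf.mp hw)).1
  have h2 := (mem_Ball.mp (mem_Bf.mp hw')).1
  have h3 := (abs_lt.mp h1).2
  have h4 := (abs_lt.mp h2).1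
  linarith

/-- normalised number of points -/
noncomputable def Nn (y : ℝ × ℝ) (u : ℝ) (n : ℕ) : ℝ := (Bf y u (2 ^ (n + 1))).card / 2 ^ (n + 1)

theorem Nn_nonneg (y : ℝ × ℝ) (u : ℝ) (n : ℕ) : 0 ≤ Nn y u n := by unfold Nn; positivity

theorem Nn_le_three {y : ℝ × ℝ} {u : ℝ} {n : ℕ} (h : u * 2 ^ (n + 1) ≤ 1 / 2) : Nn y u n ≤ 3 := by
  unfold Nn
  rw [div_le_iff₀ (by positivity)]
  have h1 := card_Bf_le (y := y) (u := u) (X := 2 ^ (n + 1)) (by positivity) h
  have h2 : (1 : ℝ) ≤ 2 ^ (n + 1) := one_le_pow₀ (by norm_num)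
  linarith

/-- the body is not contained in the line of the record `k` -/
def NS (y : ℝ × ℝ) (u : ℝ) (k n : ℕ) : Prop :=
  nv y u k < 2 ^ (n + 1) ∧ ∃ v ∈ Ball y u (2 ^ (n + 1)), ph (vec y k) v ≠ 0

theorem NS_mono {y : ℝ × ℝ} {u : ℝ} (hu : 0 ≤ u) {k n n' : ℕ} (h : n ≤ n') (hn : NS y u k n) :
    NS y u k n' := by
  obtain ⟨h1, v, hv, hv0⟩ := hn
  have h2 : (2 : ℝ) ^ (n + 1) ≤ 2 ^ (n' + 1) := pow_le_pow_right₀ (by norm_num) (by omega)
  exact ⟨h1.trans_le h2, v, ball_mono hu h2 hv, hv0⟩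

theorem Nn_step {y : ℝ × ℝ} {u : ℝ} (hu : 0 < u) {k n : ℕ} (hk : Rec y k) (hn : NS y u k n) :
    Nn y u n ≤ 2 / 3 * Nn y u (n + 4) := by
  obtain ⟨h1, v, hv, hv0⟩ := hn
  have h2 := growth hu hk h1 hv hv0
  have e : (16 : ℝ) * 2 ^ (n + 1) = 2 ^ (n + 4 + 1) := by ring
  rw [e] at h2
  unfold Nn
  have e2 : (2 : ℝ) ^ (n + 4 + 1) = 16 * 2 ^ (n + 1) := by ring
  rw [div_le_iff₀ (by positivity)]
  have h3 : 2 / 3 * (((Bf y u (2 ^ (n + 4 + 1))).card : ℝ) / 2 ^ (n + 4 + 1)) * 2 ^ (n + 1) =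
      ((Bf y u (2 ^ (n + 4 + 1))).card : ℝ) / 24 := by
    rw [show (2 : ℝ) / 3 * (((Bf y u (2 ^ (n + 4 + 1))).card : ℝ) / 2 ^ (n + 4 + 1)) * 2 ^ (n + 1) =
      ((Bf y u (2 ^ (n + 4 + 1))).card : ℝ) * (2 / 3 * 2 ^ (n + 1) / 2 ^ (n + 4 + 1)) by ring]
    rw [show (2 : ℝ) / 3 * 2 ^ (n + 1) / 2 ^ (n + 4 + 1) = 1 / 24 by
      rw [pow_add _ (n + 4) 1, pow_add _ n 4, pow_add _ n 1]; field_simp; norm_num]
    ring
  rw [h3]
  linarith

theorem Nn_iter {y : ℝ × ℝ} {u : ℝ} (hu : 0 < u) {k : ℕ} (hk : Rec y k) (m : ℕ) :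
    ∀ n : ℕ, NS y u k n → Nn y u n ≤ (2 / 3) ^ m * Nn y u (n + 4 * m) := by
  induction m with
  | zero => intro n _; simp
  | succ m ih =>
    intro n hn
    have h1 := ih n hn
    have h2 := Nn_step hu hk (NS_mono hu.le (by omega : n ≤ n + 4 * m) hn)
    have h3 : (0 : ℝ) ≤ (2 / 3) ^ m := by positivity
    calc Nn y u n ≤ (2 / 3) ^ m * Nn y u (n + 4 * m) := h1
      _ ≤ (2 / 3) ^ m * (2 / 3 * Nn y u (n + 4 * m + 4)) := mul_le_mul_of_nonneg_left h2 h3
      _ = _ := by rw [pow_succ, show n + 4 * m + 4 = n + 4 * (m + 1) by ring]; ring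

theorem geom_four (K : ℕ) : ∑ d ∈ range K, ((2 : ℝ) / 3) ^ (d / 4) ≤ 12 := by
  have h1 : ∀ K : ℕ, ∑ d ∈ range (4 * K), ((2 : ℝ) / 3) ^ (d / 4) = 12 * (1 - (2 / 3) ^ K) := by
    intro K
    induction K with
    | zero => simp
    | succ K ih =>
      rw [show 4 * (K + 1) = 4 * K + 1 + 1 + 1 + 1 by ring, Finset.sum_range_succ,
        Finset.sum_range_succ, Finset.sum_range_succ, Finset.sum_range_succ, ih,
        show 4 * K / 4 = K by omega, show (4 * K + 1) / 4 = K by omega,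
        show (4 * K + 1 + 1) / 4 = K by omega, show (4 * K + 1 + 1 + 1) / 4 = K by omega]
      rw [pow_succ]; ring
  calc ∑ d ∈ range K, ((2 : ℝ) / 3) ^ (d / 4) ≤ ∑ d ∈ range (4 * K), ((2 : ℝ) / 3) ^ (d / 4) := by
        apply Finset.sum_le_sum_of_subset_of_nonneg
        · exact Finset.range_mono (by omega)
        · intros; positivity
    _ = 12 * (1 - (2 / 3) ^ K) := h1 K
    _ ≤ 12 := by have : (0 : ℝ) ≤ (2 / 3) ^ K := by positivity
                 linarith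

/-- sum over the scales at which the body is not contained in a line -/
theorem sum_NS {y : ℝ × ℝ} {u : ℝ} (hu : 0 < u) {k : ℕ} (hk : Rec y k) (I : Finset ℕ)
    (hI : ∀ n ∈ I, NS y u k n ∧ u * 2 ^ (n + 1) ≤ 1 / 2) : ∑ n ∈ I, Nn y u n ≤ 36 := by
  classical
  rcases I.eq_empty_or_nonempty with h | h
  · rw [h]; simp
  · set M := I.max' h with hM
    have hMm := (hI M (I.max'_mem h)).2
    have h1 : ∀ n ∈ I, Nn y u n ≤ 3 * (2 / 3) ^ ((M - n) / 4) := by
      intro n hn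
      have hnM : n ≤ M := I.le_max' n hn
      have h2 := Nn_iter hu hk ((M - n) / 4) n (hI n hn).1
      have h3 : n + 4 * ((M - n) / 4) ≤ M := by omega
      have h4 : Nn y u (n + 4 * ((M - n) / 4)) ≤ 3 := by
        apply Nn_le_three
        refine le_trans ?_ hMm
        apply mul_le_mul_of_nonneg_left _ hu.le
        exact pow_le_pow_right₀ (by norm_num) (by omega)
      have h5 : (0 : ℝ) ≤ (2 / 3) ^ ((M - n) / 4) := by positivity
      calc Nn y u n ≤ _ := h2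
        _ ≤ (2 / 3) ^ ((M - n) / 4) * 3 := mul_le_mul_of_nonneg_left h4 h5
        _ = _ := by ring
    calc ∑ n ∈ I, Nn y u n ≤ ∑ n ∈ I, 3 * ((2 : ℝ) / 3) ^ ((M - n) / 4) := Finset.sum_le_sum h1
      _ = 3 * ∑ n ∈ I, ((2 : ℝ) / 3) ^ ((M - n) / 4) := by rw [Finset.mul_sum]
      _ = 3 * ∑ d ∈ I.image (fun n => M - n), ((2 : ℝ) / 3) ^ (d / 4) := by
          rw [Finset.sum_image]
          intro a ha b hb hab
          have h1 : a ≤ M := I.le_max' a ha
          have h2 : b ≤ M := I.le_max' b hb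
          simp only at hab
          omega
      _ ≤ 3 * ∑ d ∈ range (M + 1), ((2 : ℝ) / 3) ^ (d / 4) := by
          apply mul_le_mul_of_nonneg_left _ (by norm_num)
          apply Finset.sum_le_sum_of_subset_of_nonneg
          · intro d hd
            obtain ⟨n, hn, rfl⟩ := Finset.mem_image.mp hd
            rw [Finset.mem_range]; omega
          · intros; positivity
      _ ≤ 3 * 12 := mul_le_mul_of_nonneg_left (geom_four _) (by norm_num)
      _ = 36 := by norm_num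

/-- the record with minimal norm -/
theorem exists_min (y : ℝ × ℝ) {u : ℝ} (hu : 0 < u) : ∃ k : ℕ, Rec y k ∧
    ∀ m : ℕ, 1 ≤ m → nv y u k ≤ nv y u m := by
  classical
  have hex : ∃ m : ℕ, 1 ≤ m ∧ ∀ m' : ℕ, 1 ≤ m' → nv y u m ≤ nv y u m' := by
    set M := ⌈nv y u 1⌉₊ + 1 with hM
    obtain ⟨m, hm, hmin⟩ := Finset.exists_min_image (Finset.Icc 1 M) (nv y u)
      ⟨1, Finset.mem_Icc.mpr ⟨le_rfl, by omega⟩⟩
    rw [Finset.mem_Icc] at hm
    refine ⟨m, hm.1, ?_⟩
    intro m' hm'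
    by_cases h : m' ≤ M
    · exact hmin m' (Finset.mem_Icc.mpr ⟨hm', h⟩)
    · have h1 := hmin 1 (Finset.mem_Icc.mpr ⟨le_rfl, by omega⟩)
      have h2 : nv y u 1 ≤ m' := by
        have := Nat.le_ceil (nv y u 1)
        have h3 : ((⌈nv y u 1⌉₊ : ℕ) : ℝ) ≤ m' := by
          have : ⌈nv y u 1⌉₊ ≤ m' := by omega
          exact_mod_cast this
        linarith
      exact h1.trans (h2.trans (le_max_left _ _))
  refine ⟨Nat.find hex, ⟨(Nat.find_spec hex).1, ?_⟩, (Nat.find_spec hex).2⟩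
  set k := Nat.find hex with hk
  intro k' hk1 hk2
  have h1 := Nat.find_min hex hk2
  push Not at h1
  obtain ⟨m', hm', hlt⟩ := h1 hk1
  have h2 := (Nat.find_spec hex).2 m' hm'
  rw [← hk] at h2
  have h3 : nv y u k < nv y u k' := h2.trans_lt hlt
  have h4 : (k : ℝ) ≤ nv y u k := le_max_left _ _
  have h5 : (k' : ℝ) < k := by exact_mod_cast hk2
  have h6 : nv y u k' = dZ y k' / u := by
    rcases le_total (k' : ℝ) (dZ y k' / u) with h | h
    · exact max_eq_right h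
    · exfalso
      have : nv y u k' = k' := max_eq_left h
      linarith
  have h7 : dZ y k / u ≤ nv y u k := le_max_right _ _
  have h8 : dZ y k / u < dZ y k' / u := by linarith
  exact (div_lt_div_iff_of_pos_right hu).mp h8

theorem nv_lt_of_mem {y : ℝ × ℝ} {u X : ℝ} (hu : 0 < u) {w : L3} (hw : w ∈ Ball y u X)
    : nv y u w.1.natAbs < X := by
  obtain ⟨h1, h2, h3⟩ := hw
  have e : ((w.1.natAbs : ℕ) : ℝ) = |(w.1 : ℝ)| := by
    rw [Nat.cast_natAbs, Int.cast_abs]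
  have aux : ∀ (t : ℝ) (h : ℤ), |(w.1 : ℝ) * t - h| < u * X → dn ((w.1.natAbs : ℝ) * t) < u * X := by
    intro t h hh
    rw [e]
    rcases abs_choice (w.1 : ℝ) with h4 | h4
    · rw [h4]; exact (dn_le _ h).trans_lt hh
    · rw [h4]
      refine (dn_le _ (-h)).trans_lt ?_
      have : -(w.1 : ℝ) * t - ((-h : ℤ) : ℝ) = -(w.1 * t - h) := by push_cast; ring
      rw [this, abs_neg]; exact hh
  unfold nv
  apply max_lt
  · rw [e]; exact h1
  · rw [div_lt_iff₀ hu, mul_comm]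
    exact max_lt (aux _ _ h2) (aux _ _ h3)

/-- **The sum over the scales for a fixed level.** -/
theorem level_sum {y : ℝ × ℝ} {u : ℝ} (hu : 0 < u) (I : Finset ℕ)
    (hI : ∀ n ∈ I, u * 2 ^ (n + 1) ≤ 1 / 2 ∧ ∃ w ∈ Ball y u (2 ^ (n + 1)), w.1 ≠ 0 ∧
      ∀ k : ℕ, Rec y k → ph (vec y k) w = 0 → 2 ^ n ≤ 256 * k) :
    ∑ n ∈ I, Nn y u n ≤ 63 := by
  classical
  obtain ⟨k, hk, hmin⟩ := exists_min y hu
  have hν : ∀ n ∈ I, nv y u k < 2 ^ (n + 1) := by
    intro n hn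
    obtain ⟨_, w, hw, hw0, _⟩ := hI n hn
    have h1 : 1 ≤ w.1.natAbs := Int.natAbs_pos.mpr hw0
    exact (hmin _ h1).trans_lt (nv_lt_of_mem hu hw)
  set I1 := I.filter (fun n => (2 : ℕ) ^ n ≤ 256 * k) with hI1
  set I2 := I.filter (fun n => ¬ (2 : ℕ) ^ n ≤ 256 * k) with hI2
  have h2 : ∑ n ∈ I2, Nn y u n ≤ 36 := by
    apply sum_NS hu hk
    intro n hn
    rw [hI2, Finset.mem_filter] at hn
    obtain ⟨h1, w, hw, hw0, hwk⟩ := hI n hn.1
    refine ⟨⟨hν n hn.1, w, hw, fun h => hn.2 (hwk k hk h)⟩, h1⟩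
  have h1 : ∑ n ∈ I1, Nn y u n ≤ 27 := by
    rcases I1.eq_empty_or_nonempty with h | h
    · rw [h]; simp
    · have hcard : I1.card ≤ 9 := by
        set n1 := I1.min' h with hn1
        have hsub : I1 ⊆ Finset.Ico n1 (n1 + 9) := by
          intro n hn
          have hn' := hn
          rw [hI1, Finset.mem_filter] at hn'
          rw [Finset.mem_Ico]
          refine ⟨I1.min'_le n hn, ?_⟩
          have h3 : nv y u k < 2 ^ (n1 + 1) := by
            have h7 : n1 ∈ I1 := I1.min'_mem h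
            exact hν n1 (Finset.filter_subset _ _ h7)
          have h4 : (k : ℝ) < 2 ^ (n1 + 1) := (le_max_left _ _).trans_lt h3
          have h5 : k < 2 ^ (n1 + 1) := by exact_mod_cast h4
          have h6 : 2 ^ n < 2 ^ (n1 + 9) := by
            calc 2 ^ n ≤ 256 * k := hn'.2
              _ < 256 * 2 ^ (n1 + 1) := by omega
              _ = 2 ^ (n1 + 9) := by rw [pow_add, pow_add]; ring
          exact (Nat.pow_lt_pow_iff_right (by norm_num)).mp h6
        have := Finset.card_le_card hsub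
        rwa [Nat.card_Ico, Nat.add_sub_cancel_left] at this
      calc ∑ n ∈ I1, Nn y u n ≤ ∑ n ∈ I1, (3 : ℝ) := by
            apply Finset.sum_le_sum
            intro n hn
            rw [hI1, Finset.mem_filter] at hn
            exact Nn_le_three (hI n hn.1).1
        _ = I1.card * 3 := by rw [Finset.sum_const, nsmul_eq_mul]
        _ ≤ 9 * 3 := by
            apply mul_le_mul_of_nonneg_right _ (by norm_num)
            exact_mod_cast hcard
        _ = 27 := by norm_num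
  have h3 : ∑ n ∈ I, Nn y u n = ∑ n ∈ I1, Nn y u n + ∑ n ∈ I2, Nn y u n := by
    rw [hI1, hI2, Finset.sum_filter_add_sum_filter_not]
  rw [h3]; linarith

end Pool.Agent.U14.IK
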