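import Mathlib
import Pool.Agent.U14.IK.Level

/-!
# Admissible numerators, collisions, and the sum over the partners of a denominator
-/

set_option autoImplicit false

open Finset

namespace Pool.Agent.U14.IK

/-- admissible numerators -/
def Adm (y : ℝ × ℝ) (q : ℕ) (p : ℤ × ℤ) : Prop :=
  ∀ k : ℕ, Rec y k → ∀ d : ℕ, d ∣ q → 256 * k < d →
    ¬ ((d : ℤ) ∣ k * p.1 + round (k * y.1) ∧ (d : ℤ) ∣ k * p.2 + round (k * y.2))

/-- the set of the points close to an admissible point -/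
def E (y : ℝ × ℝ) (a : ℝ) (q : ℕ) : Set (ℝ × ℝ) :=
  {x | ∃ p : ℤ × ℤ, Adm y q p ∧ |q * x.1 - p.1 - y.1| < a ∧ |q * x.2 - p.2 - y.2| < a}

theorem collide_aux {s' t' g : ℝ} (hs : 0 < s') (ht : 0 < t') {a b x y p p' : ℝ}
    (h1 : |g * s' * x - p - y| < a) (h2 : |g * t' * x - p' - y| < b) :
    |(s' - t') * y - (t' * p - s' * p')| < t' * a + s' * b := by
  have e : (s' - t') * y - (t' * p - s' * p') =
      t' * (g * s' * x - p - y) - s' * (g * t' * x - p' - y) := by ring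
  rw [e]
  calc |t' * (g * s' * x - p - y) - s' * (g * t' * x - p' - y)|
      ≤ |t' * (g * s' * x - p - y)| + |s' * (g * t' * x - p' - y)| := abs_sub _ _
    _ = t' * |g * s' * x - p - y| + s' * |g * t' * x - p' - y| := by
        rw [abs_mul, abs_mul, abs_of_pos hs, abs_of_pos ht]
    _ < t' * a + s' * b := by
        have := mul_lt_mul_of_pos_left h1 ht
        have := mul_lt_mul_of_pos_left h2 hs
        linarith

/-- the vector of a collision -/
theorem collide {y : ℝ × ℝ} {a b : ℝ} {s t : ℕ} (hs : 1 ≤ s) (ht : 1 ≤ t)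
    (h : (E y a s ∩ E y b t).Nonempty) :
    ∃ w : L3, w.1 = ((s / Nat.gcd s t : ℕ) : ℤ) - ((t / Nat.gcd s t : ℕ) : ℤ) ∧
      |w.1 * y.1 - w.2.1| < ((t / Nat.gcd s t : ℕ) : ℝ) * a + ((s / Nat.gcd s t : ℕ) : ℝ) * b ∧
      |w.1 * y.2 - w.2.2| < ((t / Nat.gcd s t : ℕ) : ℝ) * a + ((s / Nat.gcd s t : ℕ) : ℝ) * b ∧
      ∀ k : ℕ, Rec y k → ph (vec y k) w = 0 →
        s / Nat.gcd s t ≤ 256 * k ∧ t / Nat.gcd s t ≤ 256 * k := by
  obtain ⟨x, ⟨p, hp, hx1, hx2⟩, ⟨p', hp', hx1', hx2'⟩⟩ := h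
  set g := Nat.gcd s t with hg
  have hgpos : 0 < g := Nat.gcd_pos_of_pos_left t (by omega)
  set s' := s / g with hs'
  set t' := t / g with ht'
  have es : s = g * s' := (Nat.mul_div_cancel' (Nat.gcd_dvd_left s t)).symm
  have et : t = g * t' := (Nat.mul_div_cancel' (Nat.gcd_dvd_right s t)).symm
  have hs'0 : 0 < s' := by
    rcases Nat.eq_zero_or_pos s' with h | h
    · rw [h, mul_zero] at es; omega
    · exact h
  have ht'0 : 0 < t' := by
    rcases Nat.eq_zero_or_pos t' with h | h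
    · rw [h, mul_zero] at et; omega
    · exact h
  have hcop : Nat.Coprime s' t' := Nat.coprime_div_gcd_div_gcd hgpos
  have hsR : (0 : ℝ) < s' := by exact_mod_cast hs'0
  have htR : (0 : ℝ) < t' := by exact_mod_cast ht'0
  have esR : (s : ℝ) = g * s' := by exact_mod_cast es
  have etR : (t : ℝ) = g * t' := by exact_mod_cast et
  rw [esR] at hx1 hx2
  rw [etR] at hx1' hx2'
  refine ⟨((s' : ℤ) - t', (t' : ℤ) * p.1 - s' * p'.1, (t' : ℤ) * p.2 - s' * p'.2), rfl, ?_, ?_, ?_⟩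
  · have := collide_aux hsR htR hx1 hx1'
    push_cast
    exact this
  · have := collide_aux hsR htR hx2 hx2'
    push_cast
    exact this
  · intro k hk hph
    rw [ph_apply, Prod.mk_eq_zero] at hph
    simp only [vec] at hph
    obtain ⟨h1, h2⟩ := hph
    set r1 := round ((k : ℝ) * y.1)
    set r2 := round ((k : ℝ) * y.2)
    have e1 : (t' : ℤ) * (k * p.1 + r1) = s' * (k * p'.1 + r1) := by linear_combination h1
    have e2 : (t' : ℤ) * (k * p.2 + r2) = s' * (k * p'.2 + r2) := by linear_combination h2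
    have hcopZ : IsCoprime (s' : ℤ) (t' : ℤ) := Nat.isCoprime_iff_coprime.mpr hcop
    constructor
    · by_contra hlt
      push Not at hlt
      refine hp k hk s' ⟨g, by rw [es]; ring⟩ hlt ⟨?_, ?_⟩
      · exact hcopZ.dvd_of_dvd_mul_left ⟨_, e1⟩
      · exact hcopZ.dvd_of_dvd_mul_left ⟨_, e2⟩
    · by_contra hlt
      push Not at hlt
      refine hp' k hk t' ⟨g, by rw [et]; ring⟩ hlt ⟨?_, ?_⟩
      · exact hcopZ.symm.dvd_of_dvd_mul_left ⟨_, e1.symm⟩
      · exact hcopZ.symm.dvd_of_dvd_mul_left ⟨_, e2.symm⟩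

/-- the data attached to a bad pair -/
theorem bad_data {y : ℝ × ℝ} {A B : ℝ} {s t : ℕ} (hs : 1 ≤ s) (ht : 1 ≤ t) (hst : t ≠ s)
    (hA : 0 < A) (hB : 0 < B) (hBA : B ≤ A)
    (hE : ((t / Nat.gcd s t : ℕ) : ℝ) * A + ((s / Nat.gcd s t : ℕ) : ℝ) * B < 1 / 8)
    (h : (E y A s ∩ E y B t).Nonempty) :
    ∃ (i n : ℕ) (w : L3), w.1 = ((s / Nat.gcd s t : ℕ) : ℤ) - ((t / Nat.gcd s t : ℕ) : ℤ) ∧
      w.1 ≠ 0 ∧
      2 ^ n ≤ max (s / Nat.gcd s t) (t / Nat.gcd s t) ∧
      w ∈ Ball y (2 * A / 2 ^ i) (2 ^ (n + 1)) ∧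
      2 * A / 2 ^ i * 2 ^ (n + 1) ≤ 1 / 2 ∧
      ((t / Nat.gcd s t : ℕ) : ℝ) ≤ 2 ^ (n + 2) / 2 ^ i ∧
      ∀ k : ℕ, Rec y k → ph (vec y k) w = 0 → 2 ^ n ≤ 256 * k := by
  obtain ⟨w, hw1, hwa, hwb, hwk⟩ := collide hs ht h
  set g := Nat.gcd s t with hg
  have hgpos : 0 < g := Nat.gcd_pos_of_pos_left t (by omega)
  set s' := s / g with hs'
  set t' := t / g with ht'
  have es : s = g * s' := (Nat.mul_div_cancel' (Nat.gcd_dvd_left s t)).symm
  have et : t = g * t' := (Nat.mul_div_cancel' (Nat.gcd_dvd_right s t)).symm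
  have hs'0 : 0 < s' := by
    rcases Nat.eq_zero_or_pos s' with h | h
    · rw [h, mul_zero] at es; omega
    · exact h
  have ht'0 : 0 < t' := by
    rcases Nat.eq_zero_or_pos t' with h | h
    · rw [h, mul_zero] at et; omega
    · exact h
  have hne : s' ≠ t' := by
    intro h
    apply hst
    rw [es, et, h]
  set Y := max s' t' with hY
  have hY0 : 0 < Y := lt_of_lt_of_le hs'0 (le_max_left _ _)
  have hYR : (0 : ℝ) < Y := by exact_mod_cast hY0
  have hsY : (s' : ℝ) ≤ Y := by exact_mod_cast le_max_left s' t'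
  have htY : (t' : ℝ) ≤ Y := by exact_mod_cast le_max_right s' t'
  have hsR : (0 : ℝ) < s' := by exact_mod_cast hs'0
  have htR : (0 : ℝ) < t' := by exact_mod_cast ht'0
  set E0 : ℝ := (t' : ℝ) * A + (s' : ℝ) * B with hE0
  have hE0pos : 0 < E0 := by positivity
  have hE0le : E0 ≤ 2 * A * Y := by
    have h1 : (t' : ℝ) * A ≤ Y * A := mul_le_mul_of_nonneg_right htY hA.le
    have h2 : (s' : ℝ) * B ≤ Y * A := mul_le_mul hsY hBA hB.le hYR.le
    rw [hE0]; linarith
  obtain ⟨i, hi1, hi2⟩ := exists_nat_pow_near (x := 2 * A * Y / E0) (y := 2)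
    (by rw [le_div_iff₀ hE0pos]; linarith) (by norm_num)
  rw [le_div_iff₀ hE0pos] at hi1
  rw [div_lt_iff₀ hE0pos] at hi2
  set n := Nat.log 2 Y with hn
  have hn1 : 2 ^ n ≤ Y := Nat.pow_log_le_self 2 (by omega)
  have hn2 : Y < 2 ^ (n + 1) := Nat.lt_pow_succ_log_self (by norm_num) Y
  have hn1R : (2 : ℝ) ^ n ≤ Y := by exact_mod_cast hn1
  have hn2R : (Y : ℝ) < 2 ^ (n + 1) := by exact_mod_cast hn2
  have h2i : (0 : ℝ) < 2 ^ i := by positivity
  have hu : 0 < 2 * A / 2 ^ i := by positivity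
  -- E0 ≤ u Y
  have hEu : E0 ≤ 2 * A / 2 ^ i * Y := by
    rw [div_mul_eq_mul_div, le_div_iff₀ h2i]; linarith
  have hEu2 : 2 * A / 2 ^ i * Y < 2 * E0 := by
    rw [div_mul_eq_mul_div, div_lt_iff₀ h2i]
    rw [pow_succ] at hi2; linarith
  have hEX : E0 < 2 * A / 2 ^ i * 2 ^ (n + 1) := by
    have := mul_lt_mul_of_pos_left hn2R hu
    linarith
  refine ⟨i, n, w, hw1, ?_, hn1, ⟨?_, hwa.trans hEX, hwb.trans hEX⟩, ?_, ?_, ?_⟩
  · rw [hw1]
    intro h
    apply hne
    have : (s' : ℤ) = t' := by linarith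
    exact_mod_cast this
  · rw [hw1]
    push_cast
    rw [abs_lt]
    constructor <;> linarith
  · have h1 : 2 * A / 2 ^ i * 2 ^ (n + 1) = 2 * (2 * A / 2 ^ i * 2 ^ n) := by rw [pow_succ]; ring
    have h2 := mul_le_mul_of_nonneg_left hn1R hu.le
    rw [h1]; linarith
  · have h1 : (t' : ℝ) * A ≤ E0 := by
      have : 0 ≤ (s' : ℝ) * B := by positivity
      rw [hE0]; linarith
    have h2 : (t' : ℝ) * A < (2 ^ (n + 2) / 2 ^ i) * A := by
      calc (t' : ℝ) * A ≤ E0 := h1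
        _ < 2 * A / 2 ^ i * 2 ^ (n + 1) := hEX
        _ = _ := by rw [pow_succ 2 (n + 1)]; ring
    exact (lt_of_mul_lt_mul_right h2 hA.le).le
  · intro k hk hph
    obtain ⟨h1, h2⟩ := hwk k hk hph
    exact hn1.trans (max_le h1 h2)

/-- **The sum over the partners of a denominator.** -/
theorem partner {y : ℝ × ℝ} (ψ : ℕ → ℝ) (s : ℕ) (hs : 1 ≤ s) (hA : 0 < ψ s) (T : Finset ℕ)
    (hT : ∀ t ∈ T, 1 ≤ t ∧ t ≠ s ∧ 0 < ψ t ∧ ψ t ≤ ψ s ∧
      ((t / Nat.gcd s t : ℕ) : ℝ) * ψ s + ((s / Nat.gcd s t : ℕ) : ℝ) * ψ t < 1 / 8 ∧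
      (E y (ψ s) s ∩ E y (ψ t) t).Nonempty) :
    ∑ t ∈ T, 1 / ((max (s / Nat.gcd s t) (t / Nat.gcd s t) : ℕ) : ℝ) ^ 2 ≤ 1008 := by
  classical
  set A := ψ s with hAdef
  have hex : ∀ t ∈ T, ∃ (i n : ℕ) (w : L3),
      w.1 = ((s / Nat.gcd s t : ℕ) : ℤ) - ((t / Nat.gcd s t : ℕ) : ℤ) ∧
      w.1 ≠ 0 ∧
      2 ^ n ≤ max (s / Nat.gcd s t) (t / Nat.gcd s t) ∧
      w ∈ Ball y (2 * A / 2 ^ i) (2 ^ (n + 1)) ∧
      2 * A / 2 ^ i * 2 ^ (n + 1) ≤ 1 / 2 ∧
      ((t / Nat.gcd s t : ℕ) : ℝ) ≤ 2 ^ (n + 2) / 2 ^ i ∧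
      ∀ k : ℕ, Rec y k → ph (vec y k) w = 0 → 2 ^ n ≤ 256 * k := by
    intro t ht
    obtain ⟨h1, h2, h3, h4, h5, h6⟩ := hT t ht
    exact bad_data hs h1 h2 hA h3 h4 h5 h6
  choose! fi fn fw hw1 hw0 hn1 hwB hu hb hk using hex
  -- the class of a pair `(i, n)`
  set F : ℕ × ℕ → Finset ℕ := fun c => T.filter (fun t => (fi t, fn t) = c) with hF
  have hclass : ∀ c : ℕ × ℕ, (((F c).card : ℕ) : ℝ) ≤ 2 ^ (c.2 + 2) / 2 ^ c.1 *
      (Bf y (2 * A / 2 ^ c.1) (2 ^ (c.2 + 1))).card := by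
    rintro ⟨i, n⟩
    simp only
    set z : ℝ := 2 ^ (n + 2) / 2 ^ i with hz
    have hz0 : 0 ≤ z := by positivity
    have h1 : (F (i, n)).card ≤ (Finset.Icc 1 ⌊z⌋₊).card *
        (Bf y (2 * A / 2 ^ i) (2 ^ (n + 1))).card := by
      rw [← Finset.card_product]
      apply Finset.card_le_card_of_injOn (fun t => (t / Nat.gcd s t, fw t))
      · intro t ht
        rw [Finset.mem_coe, hF, Finset.mem_filter] at ht
        obtain ⟨htT, hin⟩ := ht
        rw [Prod.mk.injEq] at hin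
        obtain ⟨hi, hn⟩ := hin
        rw [Finset.mem_coe, Finset.mem_product, Finset.mem_Icc, mem_Bf]
        have hgpos : 0 < Nat.gcd s t := Nat.gcd_pos_of_pos_left t (by omega)
        refine ⟨⟨?_, ?_⟩, ?_⟩
        · exact Nat.div_pos (Nat.gcd_le_right s (hT t htT).1) hgpos
        · apply Nat.le_floor
          have := hb t htT
          rw [hi, hn] at this
          exact this
        · have := hwB t htT
          rw [hi, hn] at this
          exact this
      · intro t ht t' ht' h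
        rw [Finset.mem_coe, hF, Finset.mem_filter] at ht ht'
        simp only [Prod.mk.injEq] at h
        obtain ⟨ha, hb'⟩ := h
        have e1 := hw1 t ht.1
        have e2 := hw1 t' ht'.1
        rw [hb'] at e1
        have e3 : s / Nat.gcd s t = s / Nat.gcd s t' := by
          have : ((s / Nat.gcd s t : ℕ) : ℤ) = ((s / Nat.gcd s t' : ℕ) : ℤ) := by
            rw [ha] at e1; linarith
          exact_mod_cast this
        have hg1 : 0 < Nat.gcd s t := Nat.gcd_pos_of_pos_left t (by omega)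
        have hg2 : 0 < Nat.gcd s t' := Nat.gcd_pos_of_pos_left t' (by omega)
        have f1 : Nat.gcd s t * (s / Nat.gcd s t) = s := Nat.mul_div_cancel' (Nat.gcd_dvd_left s t)
        have f2 : Nat.gcd s t' * (s / Nat.gcd s t') = s := Nat.mul_div_cancel' (Nat.gcd_dvd_left s t')
        have f3 : Nat.gcd s t * (t / Nat.gcd s t) = t := Nat.mul_div_cancel' (Nat.gcd_dvd_right s t)
        have f4 : Nat.gcd s t' * (t' / Nat.gcd s t') = t' := Nat.mul_div_cancel' (Nat.gcd_dvd_right s t')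
        have hspos : 0 < s / Nat.gcd s t := Nat.div_pos (Nat.gcd_le_left t (by omega)) hg1
        have hgg : Nat.gcd s t = Nat.gcd s t' := by
          rw [← e3] at f2
          exact Nat.eq_of_mul_eq_mul_right hspos (f1.trans f2.symm)
        rw [← f3, ← f4, ha, hgg]
    rw [Nat.card_Icc, Nat.add_sub_cancel] at h1
    have h2 : ((F (i, n)).card : ℝ) ≤ (⌊z⌋₊ : ℝ) * (Bf y (2 * A / 2 ^ i) (2 ^ (n + 1))).card := by
      exact_mod_cast h1
    refine h2.trans ?_
    exact mul_le_mul_of_nonneg_right (Nat.floor_le hz0) (Nat.cast_nonneg _)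
  set C : Finset (ℕ × ℕ) := T.image (fun t => (fi t, fn t)) with hC
  have hsum1 : ∑ t ∈ T, 1 / ((max (s / Nat.gcd s t) (t / Nat.gcd s t) : ℕ) : ℝ) ^ 2 ≤
      ∑ c ∈ C, (1 / 2 : ℝ) ^ c.1 * (8 * Nn y (2 * A / 2 ^ c.1) c.2) := by
    rw [← Finset.sum_fiberwise_of_maps_to (s := T) (t := C) (g := fun t => (fi t, fn t))
      (fun t ht => Finset.mem_image_of_mem _ ht)]
    apply Finset.sum_le_sum
    rintro ⟨i, n⟩ _
    calc ∑ t ∈ T.filter (fun t => (fi t, fn t) = (i, n)),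
          1 / ((max (s / Nat.gcd s t) (t / Nat.gcd s t) : ℕ) : ℝ) ^ 2
        ≤ ∑ t ∈ T.filter (fun t => (fi t, fn t) = (i, n)), 1 / ((2 : ℝ) ^ n) ^ 2 := by
          apply Finset.sum_le_sum
          intro t ht
          rw [Finset.mem_filter, Prod.mk.injEq] at ht
          have h1 := hn1 t ht.1
          rw [ht.2.2] at h1
          have h2 : (2 : ℝ) ^ n ≤ ((max (s / Nat.gcd s t) (t / Nat.gcd s t) : ℕ) : ℝ) := by
            exact_mod_cast h1
          apply one_div_le_one_div_of_le (by positivity)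
          exact pow_le_pow_left₀ (by positivity) h2 2
      _ = (F (i, n)).card * (1 / ((2 : ℝ) ^ n) ^ 2) := by rw [Finset.sum_const, nsmul_eq_mul]
      _ ≤ (2 ^ (n + 2) / 2 ^ i * (Bf y (2 * A / 2 ^ i) (2 ^ (n + 1))).card) *
          (1 / ((2 : ℝ) ^ n) ^ 2) := mul_le_mul_of_nonneg_right (hclass (i, n)) (by positivity)
      _ = (1 / 2 : ℝ) ^ i * (8 * Nn y (2 * A / 2 ^ i) n) := by
          unfold Nn
          rw [pow_add 2 n 2, pow_add 2 n 1, div_pow, one_pow]
          field_simp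
          ring
  refine hsum1.trans ?_
  rw [← Finset.sum_fiberwise_of_maps_to (s := C) (t := C.image Prod.fst) (g := Prod.fst)
      (fun t ht => Finset.mem_image_of_mem _ ht)]
  calc ∑ i ∈ C.image Prod.fst, ∑ c ∈ C.filter (fun c => c.1 = i),
        (1 / 2 : ℝ) ^ c.1 * (8 * Nn y (2 * A / 2 ^ c.1) c.2)
      ≤ ∑ i ∈ C.image Prod.fst, (1 / 2 : ℝ) ^ i * 504 := by
        apply Finset.sum_le_sum
        intro i _
        have h1 : ∑ c ∈ C.filter (fun c => c.1 = i),
            (1 / 2 : ℝ) ^ c.1 * (8 * Nn y (2 * A / 2 ^ c.1) c.2) =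
            (1 / 2 : ℝ) ^ i * (8 * ∑ n ∈ (C.filter (fun c => c.1 = i)).image Prod.snd,
              Nn y (2 * A / 2 ^ i) n) := by
          rw [Finset.sum_image, Finset.mul_sum, Finset.mul_sum]
          · apply Finset.sum_congr rfl
            intro c hc
            rw [Finset.mem_filter] at hc
            rw [hc.2]
          · rintro ⟨a, b⟩ ha ⟨a', b'⟩ ha' h
            rw [Finset.mem_coe, Finset.mem_filter] at ha ha'
            simp only at h ha ha'
            rw [Prod.mk.injEq]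
            exact ⟨ha.2.trans ha'.2.symm, h⟩
        rw [h1]
        apply mul_le_mul_of_nonneg_left _ (by positivity)
        have h2 : ∑ n ∈ (C.filter (fun c => c.1 = i)).image Prod.snd, Nn y (2 * A / 2 ^ i) n ≤ 63 := by
          apply level_sum (by positivity)
          intro n hn
          obtain ⟨c, hc, rfl⟩ := Finset.mem_image.mp hn
          rw [Finset.mem_filter] at hc
          obtain ⟨hcC, hci⟩ := hc
          obtain ⟨t, ht, rfl⟩ := Finset.mem_image.mp hcC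
          simp only at hci ⊢
          have g1 := hu t ht
          have g2 := hwB t ht
          rw [hci] at g1 g2
          exact ⟨g1, fw t, g2, hw0 t ht, hk t ht⟩
        linarith
    _ = (∑ i ∈ C.image Prod.fst, (1 / 2 : ℝ) ^ i) * 504 := by rw [Finset.sum_mul]
    _ ≤ 2 * 504 := by
        apply mul_le_mul_of_nonneg_right _ (by norm_num)
        have := Summable.sum_le_tsum (C.image Prod.fst) (fun j _ => by positivity)
          (summable_geometric_two)
        rw [tsum_geometric_two] at this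
        exact this
    _ = 1008 := by norm_num

end Pool.Agent.U14.IK
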