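import Mathlib
import Pool.Agent.U14.IK.Cnt
import Pool.Agent.U14.IK.Part

/-!
# Measure of the overlaps
-/

set_option autoImplicit false

open Finset MeasureTheory

namespace Pool.Agent.U14.IK

/-- the one-dimensional set -/
def A1 (y a : ℝ) (s : ℕ) : Set ℝ := {x | ∃ p : ℤ, |s * x - p - y| < a}

theorem vol_slab (y p a : ℝ) (s : ℕ) (hs : 1 ≤ s) (S : Set ℝ)
    (hS : ∀ x ∈ S, |s * x - p - y| < a) : volume S ≤ ENNReal.ofReal (2 * (a / s)) := by
  have hsR : (0 : ℝ) < s := by exact_mod_cast hs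
  have h1 : S ⊆ Set.Ioo ((p + y - a) / s) ((p + y + a) / s) := by
    intro x hx
    have h2 := abs_lt.mp (hS x hx)
    rw [Set.mem_Ioo, div_lt_iff₀ hsR, lt_div_iff₀ hsR]
    constructor <;> linarith [h2.1, h2.2]
  refine (measure_mono h1).trans ?_
  rw [Real.volume_Ioo]
  apply ENNReal.ofReal_le_ofReal
  apply le_of_eq
  field_simp
  ring

/-- overlap of two one-dimensional sets in the unit interval -/
theorem ov1 (y a b : ℝ) (s t : ℕ) (hs : 1 ≤ s) (ht : 1 ≤ t) (ha : 0 ≤ a) (ha8 : a ≤ 1 / 8)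
    (hb : 0 ≤ b) :
    volume (Set.Icc 0 1 ∩ (A1 y a s ∩ A1 y b t)) ≤ ENNReal.ofReal
      (6 * (2 * (((t / Nat.gcd s t : ℕ) : ℝ) * a + ((s / Nat.gcd s t : ℕ) : ℝ) * b) + 1) *
        min (a / ((s / Nat.gcd s t : ℕ) : ℝ)) (b / ((t / Nat.gcd s t : ℕ) : ℝ))) := by
  classical
  set g := Nat.gcd s t with hg
  have hgpos : 0 < g := Nat.gcd_pos_of_pos_left t (by omega)
  set s' := s / g with hs'
  set t' := t / g with ht'
  have es : s = g * s' := (Nat.mul_div_cancel' (Nat.gcd_dvd_left s t)).symm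
  have et : t = g * t' := (Nat.mul_div_cancel' (Nat.gcd_dvd_right s t)).symm
  have hs'0 : 0 < s' := by
    rcases Nat.eq_zero_or_pos s' with h | h
    · rw [h, mul_zero] at es; omega
    · exact h
  have ht'0 : 0 < t' := by
    rcases Nat.eq_zero_or_pos t' with h | h
    · rw [h, mul_zero] at et; omega
    · exact h
  have hcop : Nat.Coprime s' t' := Nat.coprime_div_gcd_div_gcd hgpos
  have hcopZ : IsCoprime (s' : ℤ) (t' : ℤ) := Nat.isCoprime_iff_coprime.mpr hcop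
  have hsR : (0 : ℝ) < s' := by exact_mod_cast hs'0
  have htR : (0 : ℝ) < t' := by exact_mod_cast ht'0
  have hgR : (0 : ℝ) < g := by exact_mod_cast hgpos
  have hg1 : (1 : ℝ) ≤ g := by exact_mod_cast hgpos
  have hs1 : (1 : ℝ) ≤ s' := by exact_mod_cast hs'0
  have esR : (s : ℝ) = g * s' := by exact_mod_cast es
  have etR : (t : ℝ) = g * t' := by exact_mod_cast et
  set E0 : ℝ := (t' : ℝ) * a + (s' : ℝ) * b with hE0
  have hE00 : 0 ≤ E0 := by positivity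
  set ξ : ℝ := ((s' : ℝ) - t') * y with hξ
  set C : Finset ℤ := (Finset.Icc ⌊ξ - E0⌋ ⌈ξ + E0⌉).filter (fun c : ℤ => |ξ - c| < E0) with hC
  set P : ℤ → Finset ℤ := fun c => (Finset.Icc ⌊-y - a⌋ ⌈s - y + a⌉).filter
    (fun p : ℤ => (-y - a ≤ p ∧ p ≤ s - y + a) ∧ (s' : ℤ) ∣ t' * p - c) with hP
  set m := min (a / s) (b / t) with hm
  have hm0 : 0 ≤ m := le_min (by positivity) (by positivity)
  have hCcard : (C.card : ℝ) ≤ 2 * E0 + 1 := by
    apply card_ints_upper _ _ (by positivity)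
    intro j hj j' hj'
    rw [hC, Finset.mem_filter] at hj hj'
    have h1 := (abs_lt.mp hj.2)
    have h2 := (abs_lt.mp hj'.2)
    linarith [h1.1, h2.2]
  have hPcard : ∀ c, ((P c).card : ℝ) ≤ 3 * g := by
    intro c
    have h1 : ((P c).card : ℝ) ≤ (s + 2 * a) / s' + 1 := by
      apply card_modeq _ (by positivity) s' hs'0
      · intro j hj j' hj'
        rw [hP, Finset.mem_filter] at hj hj'
        linarith [hj.2.1.2, hj'.2.1.1]
      · intro j hj j' hj'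
        rw [hP, Finset.mem_filter] at hj hj'
        have h2 : (s' : ℤ) ∣ t' * (j - j') := by
          have := dvd_sub hj.2.2 hj'.2.2
          have e : (t' * j - c) - (t' * j' - c) = (t' : ℤ) * (j - j') := by ring
          rwa [e] at this
        exact hcopZ.dvd_of_dvd_mul_left h2
    have h2 : (s + 2 * a) / s' ≤ g + 1 := by
      rw [div_le_iff₀ hsR, esR]
      nlinarith
    linarith
  have hcover : Set.Icc 0 1 ∩ (A1 y a s ∩ A1 y b t) ⊆ ⋃ c ∈ C, ⋃ p ∈ P c,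
      {x : ℝ | |s * x - p - y| < a ∧ |t * x - (((t' : ℤ) * p - c : ℤ) : ℝ) / s' - y| < b} := by
    rintro x ⟨⟨hx0, hx1⟩, ⟨p, hp⟩, ⟨p', hp'⟩⟩
    have hp2 := hp
    have hp2' := hp'
    rw [esR] at hp2
    rw [etR] at hp2'
    have h1 := collide_aux hsR htR hp2 hp2'
    rw [Set.mem_iUnion₂]
    refine ⟨(t' : ℤ) * p - s' * p', ?_, ?_⟩
    · rw [hC, Finset.mem_filter, Finset.mem_Icc]
      have h3 : |ξ - (((t' : ℤ) * p - s' * p' : ℤ) : ℝ)| < E0 := by
        push_cast; exact h1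
      refine ⟨⟨?_, ?_⟩, h3⟩
      · have h4 := (abs_lt.mp h3).2
        have h5 := Int.floor_le (ξ - E0)
        have h6 : ((⌊ξ - E0⌋ : ℤ) : ℝ) ≤ (((t' : ℤ) * p - s' * p' : ℤ) : ℝ) := by linarith
        exact_mod_cast h6
      · have h4 := (abs_lt.mp h3).1
        have h5 := Int.le_ceil (ξ + E0)
        have h6 : (((t' : ℤ) * p - s' * p' : ℤ) : ℝ) ≤ ((⌈ξ + E0⌉ : ℤ) : ℝ) := by linarith
        exact_mod_cast h6
    · rw [Set.mem_iUnion₂]
      have hs0 : (0 : ℝ) ≤ s := Nat.cast_nonneg s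
      have q1 := abs_lt.mp hp
      have q2 : (s : ℝ) * x ≤ s := by nlinarith
      have q3 : (0 : ℝ) ≤ s * x := mul_nonneg hs0 hx0
      have r1 : -y - a ≤ (p : ℝ) := by linarith [q1.2]
      have r2 : (p : ℝ) ≤ s - y + a := by linarith [q1.1]
      refine ⟨p, ?_, hp, ?_⟩
      · rw [hP, Finset.mem_filter, Finset.mem_Icc]
        refine ⟨⟨?_, ?_⟩, ⟨r1, r2⟩, ⟨p', by ring⟩⟩
        · have h5 := Int.floor_le (-y - a)
          have h6 : ((⌊-y - a⌋ : ℤ) : ℝ) ≤ (p : ℝ) := by linarith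
          exact_mod_cast h6
        · have h5 := Int.le_ceil (s - y + a)
          have h6 : (p : ℝ) ≤ ((⌈(s : ℝ) - y + a⌉ : ℤ) : ℝ) := by linarith
          exact_mod_cast h6
      · have e : ((((t' : ℤ) * p - ((t' : ℤ) * p - s' * p') : ℤ)) : ℝ) / s' = p' := by
          push_cast
          field_simp
          ring
        rw [e]; exact hp'
  refine (measure_mono hcover).trans ?_
  have hpiece : ∀ c p : ℤ, volume {x : ℝ | |s * x - p - y| < a ∧
      |t * x - (((t' : ℤ) * p - c : ℤ) : ℝ) / s' - y| < b} ≤ ENNReal.ofReal (2 * m) := by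
    intro c p
    have h1 := vol_slab y p a s hs _ (fun x (hx : x ∈ {x : ℝ | |s * x - p - y| < a ∧
      |t * x - (((t' : ℤ) * p - c : ℤ) : ℝ) / s' - y| < b}) => hx.1)
    have h2 := vol_slab y _ b t ht _ (fun x (hx : x ∈ {x : ℝ | |s * x - p - y| < a ∧
      |t * x - (((t' : ℤ) * p - c : ℤ) : ℝ) / s' - y| < b}) => hx.2)
    rcases min_choice (a / (s : ℝ)) (b / t) with h | h
    · rw [hm, h]; exact h1
    · rw [hm, h]; exact h2
  calc volume (⋃ c ∈ C, ⋃ p ∈ P c, {x : ℝ | |s * x - p - y| < a ∧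
        |t * x - (((t' : ℤ) * p - c : ℤ) : ℝ) / s' - y| < b})
      ≤ ∑ c ∈ C, volume (⋃ p ∈ P c, {x : ℝ | |s * x - p - y| < a ∧
        |t * x - (((t' : ℤ) * p - c : ℤ) : ℝ) / s' - y| < b}) := measure_biUnion_finset_le _ _
    _ ≤ ∑ c ∈ C, ∑ p ∈ P c, volume {x : ℝ | |s * x - p - y| < a ∧
        |t * x - (((t' : ℤ) * p - c : ℤ) : ℝ) / s' - y| < b} :=
        Finset.sum_le_sum fun c _ => measure_biUnion_finset_le _ _
    _ ≤ ∑ c ∈ C, ∑ p ∈ P c, ENNReal.ofReal (2 * m) :=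
        Finset.sum_le_sum fun c _ => Finset.sum_le_sum fun p _ => hpiece c p
    _ = ∑ c ∈ C, ENNReal.ofReal ((P c).card * (2 * m)) := by
        apply Finset.sum_congr rfl
        intro c _
        rw [Finset.sum_const, nsmul_eq_mul, ENNReal.ofReal_mul (Nat.cast_nonneg _),
          ENNReal.ofReal_natCast]
    _ ≤ ∑ c ∈ C, ENNReal.ofReal (3 * g * (2 * m)) := by
        apply Finset.sum_le_sum
        intro c _
        apply ENNReal.ofReal_le_ofReal
        exact mul_le_mul_of_nonneg_right (hPcard c) (by positivity)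
    _ = ENNReal.ofReal (C.card * (3 * g * (2 * m))) := by
        rw [Finset.sum_const, nsmul_eq_mul, ENNReal.ofReal_mul (Nat.cast_nonneg _),
          ENNReal.ofReal_natCast]
    _ ≤ ENNReal.ofReal ((2 * E0 + 1) * (3 * g * (2 * m))) := by
        apply ENNReal.ofReal_le_ofReal
        exact mul_le_mul_of_nonneg_right hCcard (by positivity)
    _ = _ := by
        congr 1
        have h1 : g * m = min (a / s') (b / t') := by
          rw [hm, mul_min_of_nonneg _ _ hgR.le, esR, etR]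
          congr 1 <;> field_simp
        rw [← h1]; ring

/-- overlap of two two-dimensional sets in the unit square -/
theorem ov2 (y : ℝ × ℝ) (a b : ℝ) (s t : ℕ) (hs : 1 ≤ s) (ht : 1 ≤ t) (ha : 0 ≤ a)
    (ha8 : a ≤ 1 / 8) (hb : 0 ≤ b) :
    (volume (Set.Icc (0 : ℝ × ℝ) 1 ∩ (E y a s ∩ E y b t))).toReal ≤
      (6 * (2 * (((t / Nat.gcd s t : ℕ) : ℝ) * a + ((s / Nat.gcd s t : ℕ) : ℝ) * b) + 1) *
        min (a / ((s / Nat.gcd s t : ℕ) : ℝ)) (b / ((t / Nat.gcd s t : ℕ) : ℝ))) ^ 2 := by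
  have h1 : Set.Icc (0 : ℝ × ℝ) 1 ∩ (E y a s ∩ E y b t) ⊆
      (Set.Icc 0 1 ∩ (A1 y.1 a s ∩ A1 y.1 b t)) ×ˢ (Set.Icc 0 1 ∩ (A1 y.2 a s ∩ A1 y.2 b t)) := by
    rintro ⟨x1, x2⟩ ⟨⟨h0, h1⟩, ⟨p, _, hp1, hp2⟩, ⟨p', _, hp1', hp2'⟩⟩
    exact ⟨⟨⟨h0.1, h1.1⟩, ⟨p.1, hp1⟩, ⟨p'.1, hp1'⟩⟩, ⟨⟨h0.2, h1.2⟩, ⟨p.2, hp2⟩, ⟨p'.2, hp2'⟩⟩⟩
  set K := 6 * (2 * (((t / Nat.gcd s t : ℕ) : ℝ) * a + ((s / Nat.gcd s t : ℕ) : ℝ) * b) + 1) *
        min (a / ((s / Nat.gcd s t : ℕ) : ℝ)) (b / ((t / Nat.gcd s t : ℕ) : ℝ)) with hK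
  have hK0 : 0 ≤ K := by
    have : 0 ≤ min (a / ((s / Nat.gcd s t : ℕ) : ℝ)) (b / ((t / Nat.gcd s t : ℕ) : ℝ)) :=
      le_min (by positivity) (by positivity)
    positivity
  have h2 : volume (Set.Icc (0 : ℝ × ℝ) 1 ∩ (E y a s ∩ E y b t)) ≤ ENNReal.ofReal (K ^ 2) := by
    refine (measure_mono h1).trans ?_
    rw [Measure.volume_eq_prod, Measure.prod_prod, pow_two, ENNReal.ofReal_mul hK0]
    exact mul_le_mul' (ov1 y.1 a b s t hs ht ha ha8 hb) (ov1 y.2 a b s t hs ht ha ha8 hb)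
  exact ENNReal.toReal_le_of_le_ofReal (by positivity) h2

end Pool.Agent.U14.IK
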