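import Mathlib
import Pool.Agent.U14.IK.Ov

/-!
# Local lower bound of the measure
-/

set_option autoImplicit false

open Finset MeasureTheory

namespace Pool.Agent.U14.IK

/-- coprimality -/
theorem rec_coprime {y : ℝ × ℝ} {k : ℕ} (hk : Rec y k) {d : ℕ} (hd : 0 < d) {p1 p2 : ℤ}
    (h1 : (d : ℤ) ∣ k * p1 + round (k * y.1)) (h2 : (d : ℤ) ∣ k * p2 + round (k * y.2)) :
    Nat.Coprime d k := by
  set e := Nat.gcd d k with he
  have hepos : 0 < e := Nat.gcd_pos_of_pos_left k hd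
  by_contra hne
  have he2 : 2 ≤ e := by
    rcases Nat.lt_or_ge e 2 with h | h
    · exfalso; apply hne
      have : e = 1 := by omega
      exact this
    · exact h
  have hek : (e : ℤ) ∣ k := by exact_mod_cast Nat.gcd_dvd_right d k
  have hed : (e : ℤ) ∣ d := by exact_mod_cast Nat.gcd_dvd_left d k
  have aux : ∀ (p r : ℤ), (d : ℤ) ∣ k * p + r → (e : ℤ) ∣ r := by
    intro p r h
    have h3 := hed.trans h
    have h4 : (e : ℤ) ∣ k * p := hek.mul_right p
    have := dvd_sub h3 h4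
    simpa using this
  obtain ⟨c1, hc1⟩ := aux _ _ h1
  obtain ⟨c2, hc2⟩ := aux _ _ h2
  obtain ⟨m, hm⟩ := Nat.gcd_dvd_right d k
  rw [← he] at hm
  have hk1 := hk.1
  have hm1 : 1 ≤ m := by
    rcases Nat.eq_zero_or_pos m with h | h
    · rw [h, mul_zero] at hm; omega
    · exact h
  have hmk : m < k := by nlinarith
  have heR : (2 : ℝ) ≤ e := by exact_mod_cast he2
  have hkR : (k : ℝ) = e * m := by exact_mod_cast hm
  have aux2 : ∀ (t : ℝ) (c : ℤ), round ((k : ℝ) * t) = e * c → dn (k * t) ≤ dZ y k →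
      dn (m * t) ≤ dZ y k := by
    intro t c hc hle
    refine (dn_le _ c).trans ?_
    have hcR : ((round ((k : ℝ) * t) : ℤ) : ℝ) = e * c := by
      have := congrArg (fun z : ℤ => (z : ℝ)) hc
      push_cast at this
      exact this
    have h3 : (m : ℝ) * t - c = (k * t - round ((k : ℝ) * t)) / e := by
      rw [hcR, hkR]
      field_simp
    rw [h3, abs_div, abs_of_pos (by linarith : (0 : ℝ) < e), div_le_iff₀ (by linarith)]
    have h4 : |(k : ℝ) * t - round ((k : ℝ) * t)| ≤ dZ y k := hle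
    have h5 := dZ_nonneg y k
    nlinarith
  have h3 := aux2 y.1 c1 hc1 (le_max_left _ _)
  have h4 := aux2 y.2 c2 hc2 (le_max_right _ _)
  have h5 : dZ y m ≤ dZ y k := max_le h3 h4
  have h6 := hk.2 m hm1 hmk
  linarith

/-- the grid squares -/
def Sq (n i j : ℕ) : Set (ℝ × ℝ) :=
  Set.Ico ((i : ℝ) / n) ((i + 1) / n) ×ˢ Set.Ico ((j : ℝ) / n) ((j + 1) / n)

/-- the numerators whose interval is in a grid interval -/
noncomputable def Jn (y a : ℝ) (q n i : ℕ) : Finset ℤ :=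
  Finset.Icc ⌈(i : ℝ) / n * q + a - y⌉ ⌊((i : ℝ) + 1) / n * q - a - y⌋

theorem Jn_mem {y a : ℝ} {q n i : ℕ} {p : ℤ} (hp : p ∈ Jn y a q n i) :
    (i : ℝ) / n * q + a - y ≤ p ∧ (p : ℝ) ≤ ((i : ℝ) + 1) / n * q - a - y := by
  unfold Jn at hp
  rw [Finset.mem_Icc] at hp
  constructor
  · have h1 := Int.le_ceil ((i : ℝ) / n * q + a - y)
    have h2 : ((⌈(i : ℝ) / n * q + a - y⌉ : ℤ) : ℝ) ≤ p := by exact_mod_cast hp.1
    linarith
  · have h1 := Int.floor_le (((i : ℝ) + 1) / n * q - a - y)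
    have h2 : (p : ℝ) ≤ ((⌊((i : ℝ) + 1) / n * q - a - y⌋ : ℤ) : ℝ) := by exact_mod_cast hp.2
    linarith

theorem Jn_card {y a : ℝ} {q n i : ℕ} (ha : a ≤ 1 / 8) :
    (q : ℝ) / n - 2 ≤ (Jn y a q n i).card := by
  unfold Jn
  rw [Int.card_Icc]
  set α := (i : ℝ) / n * q + a - y
  set β := ((i : ℝ) + 1) / n * q - a - y
  have h1 := Int.ceil_lt_add_one α
  have h2 := Int.lt_floor_add_one β
  have h3 : ((⌊β⌋ + 1 - ⌈α⌉ : ℤ) : ℝ) ≤ (((⌊β⌋ + 1 - ⌈α⌉).toNat : ℕ) : ℝ) := by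
    have := Int.self_le_toNat (⌊β⌋ + 1 - ⌈α⌉)
    exact_mod_cast this
  push_cast at h3
  have h4 : β - α = (q : ℝ) / n - 2 * a := by
    simp only [α, β]; ring
  linarith

theorem Jn_diff {y a : ℝ} {q n i : ℕ} (ha : 0 ≤ a) {p p' : ℤ} (hp : p ∈ Jn y a q n i)
    (hp' : p' ∈ Jn y a q n i) : (p : ℝ) - p' ≤ (q : ℝ) / n := by
  have h1 := (Jn_mem hp).2
  have h2 := (Jn_mem hp').1
  have h4 : ((i : ℝ) + 1) / n * q - (i : ℝ) / n * q = (q : ℝ) / n := by ring
  linarith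

/-- the number of the forbidden numerators in a square -/
theorem bad_card (y : ℝ × ℝ) (a : ℝ) (ha : 0 ≤ a) (q n i j : ℕ) (hq : 1 ≤ q)
    [DecidablePred (Adm y q)] :
    ((((Jn y.1 a q n i) ×ˢ (Jn y.2 a q n j)).filter (fun p => ¬ Adm y q p)).card : ℝ) ≤
      ((q : ℝ) / n) ^ 2 / 8 + 16 * q * (Nat.log 2 q + 1) := by
  classical
  set ℓ : ℝ := (q : ℝ) / n with hℓ
  have hℓ0 : 0 ≤ ℓ := by positivity
  set T : Finset ℕ := (Finset.Icc 1 q).filter (fun k => Rec y k) with hTdef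
  set D : ℕ → Finset ℕ := fun k => q.divisors.filter (fun d => 256 * k < d) with hD
  set Z1 : ℕ → ℕ → Finset ℤ := fun k d =>
    (Jn y.1 a q n i).filter (fun p : ℤ => (d : ℤ) ∣ k * p + round (k * y.1)) with hZ1
  set Z2 : ℕ → ℕ → Finset ℤ := fun k d =>
    (Jn y.2 a q n j).filter (fun p : ℤ => (d : ℤ) ∣ k * p + round (k * y.2)) with hZ2
  have hsub : ((Jn y.1 a q n i) ×ˢ (Jn y.2 a q n j)).filter (fun p => ¬ Adm y q p) ⊆
      T.biUnion (fun k => (D k).biUnion (fun d => (Z1 k d) ×ˢ (Z2 k d))) := by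
    rintro ⟨p1, p2⟩ hp
    rw [Finset.mem_filter, Finset.mem_product] at hp
    obtain ⟨⟨hp1, hp2⟩, hna⟩ := hp
    unfold Adm at hna
    push Not at hna
    obtain ⟨k, hk, d, hd, hkd, hd1, hd2⟩ := hna
    rw [Finset.mem_biUnion]
    have hdq : d ≤ q := Nat.le_of_dvd (by omega) hd
    refine ⟨k, ?_, ?_⟩
    · rw [hTdef, Finset.mem_filter, Finset.mem_Icc]
      exact ⟨⟨hk.1, by omega⟩, hk⟩
    · rw [Finset.mem_biUnion]
      refine ⟨d, ?_, ?_⟩
      · rw [hD, Finset.mem_filter, Nat.mem_divisors]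
        exact ⟨⟨hd, by omega⟩, hkd⟩
      · rw [Finset.mem_product, hZ1, hZ2, Finset.mem_filter, Finset.mem_filter]
        exact ⟨⟨hp1, hd1⟩, ⟨hp2, hd2⟩⟩
  have hZ : ∀ k ∈ T, ∀ d ∈ D k, (((Z1 k d) ×ˢ (Z2 k d)).card : ℝ) ≤
      2 * ℓ ^ 2 * ((d : ℝ) ^ 2)⁻¹ + 2 := by
    intro k hk d hd
    rw [hTdef, Finset.mem_filter] at hk
    rw [hD, Finset.mem_filter] at hd
    have hd0 : 0 < d := by omega
    have hdR : (0 : ℝ) < d := by exact_mod_cast hd0
    rcases (Z1 k d ×ˢ Z2 k d).eq_empty_or_nonempty with h | ⟨⟨p1, p2⟩, hp⟩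
    · rw [h, Finset.card_empty, Nat.cast_zero]; positivity
    · rw [Finset.mem_product] at hp
      have hp1 := (Finset.mem_filter.mp hp.1).2
      have hp2 := (Finset.mem_filter.mp hp.2).2
      have hcop := rec_coprime hk.2 hd0 hp1 hp2
      have hcopZ : IsCoprime (d : ℤ) (k : ℤ) := Nat.isCoprime_iff_coprime.mpr hcop
      have aux : ∀ (t : ℝ) (i : ℕ), (((Jn t a q n i).filter
          (fun p : ℤ => (d : ℤ) ∣ k * p + round (k * t))).card : ℝ) ≤ ℓ / d + 1 := by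
        intro t i
        apply card_modeq _ hℓ0 d hd0
        · intro b hb b' hb'
          exact Jn_diff ha (Finset.mem_filter.mp hb).1 (Finset.mem_filter.mp hb').1
        · intro b hb b' hb'
          have g1 := (Finset.mem_filter.mp hb).2
          have g2 := (Finset.mem_filter.mp hb').2
          have g3 := dvd_sub g1 g2
          have e : (k * b + round (k * t)) - (k * b' + round (k * t)) = (k : ℤ) * (b - b') := by ring
          rw [e] at g3
          exact hcopZ.dvd_of_dvd_mul_left g3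
      have c1 : ((Z1 k d).card : ℝ) ≤ ℓ / d + 1 := aux y.1 i
      have c2 : ((Z2 k d).card : ℝ) ≤ ℓ / d + 1 := aux y.2 j
      rw [Finset.card_product, Nat.cast_mul]
      have h0 : 0 ≤ ℓ / d := by positivity
      calc ((Z1 k d).card : ℝ) * (Z2 k d).card ≤ (ℓ / d + 1) * (ℓ / d + 1) :=
            mul_le_mul c1 c2 (Nat.cast_nonneg _) (by positivity)
        _ ≤ 2 * (ℓ / d) ^ 2 + 2 := by nlinarith [sq_nonneg (ℓ / d - 1)]
        _ = _ := by rw [div_pow]; ring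
  have hDsum : ∀ k ∈ T, ∑ d ∈ D k, (2 * ℓ ^ 2 * ((d : ℝ) ^ 2)⁻¹ + 2) ≤
      ℓ ^ 2 / 128 * (1 / k) + 2 * q := by
    intro k hk
    rw [hTdef, Finset.mem_filter, Finset.mem_Icc] at hk
    have hk0 : 0 < k := hk.1.1
    have hkR : (0 : ℝ) < k := by exact_mod_cast hk0
    rw [Finset.sum_add_distrib, ← Finset.mul_sum]
    have h1 : ∑ d ∈ D k, ((d : ℝ) ^ 2)⁻¹ ≤ 1 / (256 * k) := by
      by_cases hlt : q ≤ 256 * k
      · have : D k = ∅ := by
          rw [hD, Finset.filter_eq_empty_iff]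
          intro d hd
          have := Nat.divisor_le hd
          omega
        rw [this, Finset.sum_empty]; positivity
      · push Not at hlt
        calc ∑ d ∈ D k, ((d : ℝ) ^ 2)⁻¹ ≤ ∑ d ∈ Finset.Ioc (256 * k) q, ((d : ℝ) ^ 2)⁻¹ := by
              apply Finset.sum_le_sum_of_subset_of_nonneg
              · intro d hd
                rw [hD, Finset.mem_filter] at hd
                rw [Finset.mem_Ioc]
                exact ⟨hd.2, Nat.divisor_le hd.1⟩
              · intros; positivity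
          _ ≤ ((256 * k : ℕ) : ℝ)⁻¹ - (q : ℝ)⁻¹ := sum_Ioc_inv_sq_le_sub (by omega) hlt.le
          _ ≤ _ := by
              have : (0 : ℝ) ≤ (q : ℝ)⁻¹ := by positivity
              push_cast
              rw [one_div]
              linarith
    have h2 : ∑ _d ∈ D k, (2 : ℝ) ≤ 2 * q := by
      rw [Finset.sum_const, nsmul_eq_mul, mul_comm]
      apply mul_le_mul_of_nonneg_left _ (by norm_num)
      have h3 : (D k).card ≤ q := by
        calc (D k).card ≤ q.divisors.card := Finset.card_filter_le _ _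
          _ ≤ q := Nat.card_divisors_le_self q
      exact_mod_cast h3
    have h3 := mul_le_mul_of_nonneg_left h1 (by positivity : 0 ≤ 2 * ℓ ^ 2)
    have h4 : 2 * ℓ ^ 2 * (1 / (256 * k)) = ℓ ^ 2 / 128 * (1 / k) := by
      field_simp; ring
    linarith
  have hTr : ∀ k ∈ T, Rec y k := fun k hk => (Finset.mem_filter.mp hk).2
  calc ((((Jn y.1 a q n i) ×ˢ (Jn y.2 a q n j)).filter (fun p => ¬ Adm y q p)).card : ℝ)
      ≤ ((T.biUnion (fun k => (D k).biUnion (fun d => (Z1 k d) ×ˢ (Z2 k d)))).card : ℝ) := by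
        exact_mod_cast Finset.card_le_card hsub
    _ ≤ ∑ k ∈ T, ∑ d ∈ D k, (((Z1 k d) ×ˢ (Z2 k d)).card : ℝ) := by
        have : (T.biUnion (fun k => (D k).biUnion (fun d => (Z1 k d) ×ˢ (Z2 k d)))).card ≤
            ∑ k ∈ T, ∑ d ∈ D k, ((Z1 k d) ×ˢ (Z2 k d)).card :=
          Finset.card_biUnion_le.trans (Finset.sum_le_sum fun k _ => Finset.card_biUnion_le)
        exact_mod_cast this
    _ ≤ ∑ k ∈ T, ∑ d ∈ D k, (2 * ℓ ^ 2 * ((d : ℝ) ^ 2)⁻¹ + 2) :=
        Finset.sum_le_sum fun k hk => Finset.sum_le_sum fun d hd => hZ k hk d hd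
    _ ≤ ∑ k ∈ T, (ℓ ^ 2 / 128 * (1 / k) + 2 * q) := Finset.sum_le_sum hDsum
    _ = ℓ ^ 2 / 128 * ∑ k ∈ T, (1 : ℝ) / k + T.card * (2 * q) := by
        rw [Finset.sum_add_distrib, ← Finset.mul_sum, Finset.sum_const, nsmul_eq_mul]
    _ ≤ ℓ ^ 2 / 128 * 16 + (8 * (Nat.log 2 q + 1)) * (2 * q) := by
        have h1 := mul_le_mul_of_nonneg_left (rec_sum T hTr) (by positivity : 0 ≤ ℓ ^ 2 / 128)
        have h2 : T.card ≤ 8 * (Nat.log 2 q + 1) := rec_card q T (fun k hk =>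
          ⟨hTr k hk, (Finset.mem_Icc.mp (Finset.mem_filter.mp hk).1).2⟩)
        have h3 : (T.card : ℝ) ≤ 8 * (Nat.log 2 q + 1) := by exact_mod_cast h2
        have h4 := mul_le_mul_of_nonneg_right h3 (by positivity : (0 : ℝ) ≤ 2 * q)
        linarith
    _ = _ := by ring

/-- **Local lower bound.** -/
theorem local_lower (y : ℝ × ℝ) (n : ℕ) (hn : 1 ≤ n) : ∃ q0 : ℕ, ∀ q : ℕ, q0 ≤ q → ∀ a : ℝ,
    0 ≤ a → a ≤ 1 / 8 → ∀ i j : ℕ,
      2 * a ^ 2 * (1 / (n : ℝ) ^ 2) ≤ (volume (E y a q ∩ Sq n i j)).toReal := by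
  classical
  have hnR : (0 : ℝ) < n := by exact_mod_cast hn
  obtain ⟨q1, hq1⟩ := log_small (1 / (128 * n ^ 2)) (by positivity)
  refine ⟨max q1 (16 * n), fun q hq a ha ha8 i j => ?_⟩
  have hq1' : q1 ≤ q := (le_max_left _ _).trans hq
  have hq2 : 16 * n ≤ q := (le_max_right _ _).trans hq
  have hqpos : 1 ≤ q := by omega
  have hqR : (0 : ℝ) < q := by exact_mod_cast hqpos
  have hlog := hq1 q hq1'
  set ℓ : ℝ := (q : ℝ) / n with hℓ
  have hℓ16 : 16 ≤ ℓ := by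
    rw [hℓ, le_div_iff₀ hnR]; exact_mod_cast hq2
  set J1 := Jn y.1 a q n i with hJ1
  set J2 := Jn y.2 a q n j with hJ2
  set Gd := (J1 ×ˢ J2).filter (fun p => Adm y q p) with hGd
  have hc1 : ℓ - 2 ≤ J1.card := Jn_card ha8
  have hc2 : ℓ - 2 ≤ J2.card := Jn_card ha8
  have hbad := bad_card y a ha q n i j hqpos
  have hsplit : (Gd.card : ℝ) + ((J1 ×ˢ J2).filter (fun p => ¬ Adm y q p)).card =
      J1.card * J2.card := by
    have h1 := Finset.card_filter_add_card_filter_not (s := J1 ×ˢ J2) (fun p => Adm y q p)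
    rw [Finset.card_product] at h1
    exact_mod_cast h1
  have hGcard : ℓ ^ 2 / 2 ≤ Gd.card := by
    have h1 : (ℓ - 2) * (ℓ - 2) ≤ J1.card * J2.card :=
      mul_le_mul hc1 hc2 (by linarith) (Nat.cast_nonneg _)
    have h2 : 16 * (q : ℝ) * (Nat.log 2 q + 1) ≤ ℓ ^ 2 / 8 := by
      calc 16 * (q : ℝ) * (Nat.log 2 q + 1) ≤ 16 * q * (1 / (128 * n ^ 2) * q) :=
            mul_le_mul_of_nonneg_left hlog (by positivity)
        _ = ℓ ^ 2 / 8 := by rw [hℓ]; field_simp; norm_num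
    nlinarith
  -- the boxes
  set Bx : ℤ × ℤ → Set (ℝ × ℝ) := fun p =>
    Set.Ioo (((p.1 : ℝ) + y.1 - a) / q) ((p.1 + y.1 + a) / q) ×ˢ
      Set.Ioo (((p.2 : ℝ) + y.2 - a) / q) ((p.2 + y.2 + a) / q) with hBx
  have hvol : ∀ p, volume (Bx p) = ENNReal.ofReal ((2 * a / q) ^ 2) := by
    intro p
    rw [hBx]
    simp only
    have e : ∀ c : ℝ, (c + a) / q - (c - a) / q = 2 * a / q := by
      intro c; field_simp; ring
    rw [Measure.volume_eq_prod, Measure.prod_prod, Real.volume_Ioo, Real.volume_Ioo, e, e,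
      ← ENNReal.ofReal_mul (by positivity), ← pow_two]
  have hmeas : ∀ p, MeasurableSet (Bx p) := fun p => measurableSet_Ioo.prod measurableSet_Ioo
  have hdisj : Set.PairwiseDisjoint (Gd : Set (ℤ × ℤ)) Bx := by
    intro p hp p' hp' hne
    rw [Function.onFun, Set.disjoint_left]
    rintro ⟨x1, x2⟩ ⟨h1, h2⟩ ⟨h1', h2'⟩
    apply hne
    have aux : ∀ (x t : ℝ) (b b' : ℤ), x ∈ Set.Ioo (((b : ℝ) + t - a) / q) ((b + t + a) / q) →
        x ∈ Set.Ioo (((b' : ℝ) + t - a) / q) ((b' + t + a) / q) → b = b' := by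
      intro x t b b' hx hx'
      rw [Set.mem_Ioo, div_lt_iff₀ hqR, lt_div_iff₀ hqR] at hx hx'
      have g1 : ((b - b' : ℤ) : ℝ) < 1 := by push_cast; linarith [hx.1, hx'.2]
      have g2 : ((b' - b : ℤ) : ℝ) < 1 := by push_cast; linarith [hx.2, hx'.1]
      have g3 : b - b' < 1 := by exact_mod_cast g1
      have g4 : b' - b < 1 := by exact_mod_cast g2
      omega
    exact Prod.ext (aux _ _ _ _ h1 h1') (aux _ _ _ _ h2 h2')
  have hsub : (⋃ p ∈ Gd, Bx p) ⊆ E y a q ∩ Sq n i j := by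
    intro x hx
    rw [Set.mem_iUnion₂] at hx
    obtain ⟨p, hp, hx1, hx2⟩ := hx
    rw [hGd, Finset.mem_filter, Finset.mem_product] at hp
    obtain ⟨⟨hp1, hp2⟩, hadm⟩ := hp
    have aux : ∀ (x t : ℝ) (b : ℤ) (i : ℕ), b ∈ Jn t a q n i →
        x ∈ Set.Ioo (((b : ℝ) + t - a) / q) ((b + t + a) / q) →
        |q * x - b - t| < a ∧ x ∈ Set.Ico ((i : ℝ) / n) ((i + 1) / n) := by
      intro x t b i hb hx
      rw [Set.mem_Ioo, div_lt_iff₀ hqR, lt_div_iff₀ hqR] at hx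
      have h3 := Jn_mem hb
      refine ⟨by rw [abs_lt]; constructor <;> linarith [hx.1, hx.2], ?_, ?_⟩
      · have h4 : (i : ℝ) / n * q ≤ x * q := by linarith [hx.1, h3.1]
        exact le_of_mul_le_mul_right h4 hqR
      · have h4 : x * q < ((i : ℝ) + 1) / n * q := by linarith [hx.2, h3.2]
        exact lt_of_mul_lt_mul_right h4 hqR.le
    have a1 := aux x.1 y.1 p.1 i hp1 hx1
    have a2 := aux x.2 y.2 p.2 j hp2 hx2
    exact ⟨⟨p, hadm, a1.1, a2.1⟩, ⟨a1.2, a2.2⟩⟩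
  have hfin : volume (E y a q ∩ Sq n i j) ≠ ⊤ := by
    have h1 : volume (Sq n i j) ≠ ⊤ := by
      unfold Sq
      rw [Measure.volume_eq_prod, Measure.prod_prod, Real.volume_Ico, Real.volume_Ico]
      exact ENNReal.mul_ne_top ENNReal.ofReal_ne_top ENNReal.ofReal_ne_top
    exact measure_ne_top_of_subset Set.inter_subset_right h1
  have hUn : volume (⋃ p ∈ Gd, Bx p) = ENNReal.ofReal (Gd.card * (2 * a / q) ^ 2) := by
    rw [measure_biUnion_finset hdisj (fun p _ => hmeas p), Finset.sum_congr rfl (fun p _ => hvol p),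
      Finset.sum_const, nsmul_eq_mul, ENNReal.ofReal_mul (Nat.cast_nonneg _), ENNReal.ofReal_natCast]
  have h1 : Gd.card * (2 * a / q) ^ 2 ≤ (volume (E y a q ∩ Sq n i j)).toReal := by
    have h2 := measure_mono (μ := volume) hsub
    rw [hUn] at h2
    have h3 := ENNReal.toReal_mono hfin h2
    rwa [ENNReal.toReal_ofReal (by positivity)] at h3
  refine le_trans ?_ h1
  calc 2 * a ^ 2 * (1 / (n : ℝ) ^ 2) = ℓ ^ 2 / 2 * (2 * a / q) ^ 2 := by
        rw [hℓ]; field_simp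
    _ ≤ _ := mul_le_mul_of_nonneg_right hGcard (by positivity)

end Pool.Agent.U14.IK
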