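import Mathlib
import Pool.Agent.U14.IK.Ov

/-!
# Quasi-independence on average
-/

set_option autoImplicit false

open Finset MeasureTheory

namespace Pool.Agent.U14.IK

theorem min_prod {s' t' a b : ℝ} (hs : 0 < s') (ht : 0 < t') (ha : 0 ≤ a) (hb : 0 ≤ b) :
    (t' * a + s' * b) * min (a / s') (b / t') ≤ 2 * (a * b) := by
  rcases le_total (a / s') (b / t') with h | h
  · rw [min_eq_left h]
    rw [div_le_div_iff₀ hs ht] at h
    have h1 : t' * a + s' * b ≤ 2 * (s' * b) := by nlinarith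
    calc (t' * a + s' * b) * (a / s') ≤ 2 * (s' * b) * (a / s') :=
          mul_le_mul_of_nonneg_right h1 (by positivity)
      _ = _ := by field_simp
  · rw [min_eq_right h]
    rw [div_le_div_iff₀ ht hs] at h
    have h1 : t' * a + s' * b ≤ 2 * (t' * a) := by nlinarith
    calc (t' * a + s' * b) * (b / t') ≤ 2 * (t' * a) * (b / t') :=
          mul_le_mul_of_nonneg_right h1 (by positivity)
      _ = _ := by field_simp

/-- quasi-independence on average -/
theorem quasi (y : ℝ × ℝ) (ψ : ℕ → ℝ) (T : Finset ℕ)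
    (hT : ∀ t ∈ T, 1 ≤ t ∧ 0 < ψ t ∧ ψ t ≤ 1 / 8) :
    ∑ s ∈ T, ∑ t ∈ T, (volume (Set.Icc (0 : ℝ × ℝ) 1 ∩ (E y (ψ s) s ∩ E y (ψ t) t))).toReal ≤
      14400 * (∑ t ∈ T, ψ t ^ 2) ^ 2 + 200000 * ∑ t ∈ T, ψ t ^ 2 := by
  classical
  set bad : ℕ → ℕ → Prop := fun s t => t ≠ s ∧ ψ t ≤ ψ s ∧
    ((t / Nat.gcd s t : ℕ) : ℝ) * ψ s + ((s / Nat.gcd s t : ℕ) : ℝ) * ψ t < 1 / 8 ∧
      (E y (ψ s) s ∩ E y (ψ t) t).Nonempty with hbad
  set G : ℕ → ℕ → ℝ := fun s t => if bad s t then
    57 * ψ s ^ 2 * (1 / ((max (s / Nat.gcd s t) (t / Nat.gcd s t) : ℕ) : ℝ) ^ 2) else 0 with hG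
  have hG0 : ∀ s t, 0 ≤ G s t := by
    intro s t
    simp only [hG]
    split_ifs
    · positivity
    · exact le_rfl
  have hGsum : ∀ s ∈ T, ∑ t ∈ T, G s t ≤ 57 * 1008 * ψ s ^ 2 := by
    intro s hs
    simp only [hG]
    rw [← Finset.sum_filter, ← Finset.mul_sum]
    have h1 := partner (y := y) ψ s (hT s hs).1 (hT s hs).2.1 (T.filter (fun t => bad s t)) (by
      intro t ht
      rw [Finset.mem_filter] at ht
      obtain ⟨htT, h1, h2, h3, h4⟩ := ht
      exact ⟨(hT t htT).1, h1, (hT t htT).2.1, h2, h3, h4⟩)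
    have h2 : (0 : ℝ) ≤ 57 * ψ s ^ 2 := by positivity
    have h3 := mul_le_mul_of_nonneg_left h1 h2
    linarith
  have hmain : ∀ s ∈ T, ∀ t ∈ T,
      (volume (Set.Icc (0 : ℝ × ℝ) 1 ∩ (E y (ψ s) s ∩ E y (ψ t) t))).toReal ≤
      14400 * (ψ s ^ 2 * ψ t ^ 2) + (if s = t then 81 * ψ s ^ 2 else 0) + G s t + G t s := by
    intro s hs t ht
    obtain ⟨hs1, hsp, hs8⟩ := hT s hs
    obtain ⟨ht1, htp, ht8⟩ := hT t ht
    have h1 := ov2 y (ψ s) (ψ t) s t hs1 ht1 hsp.le hs8 htp.le
    have hG1 := hG0 s t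
    have hG2 := hG0 t s
    have hpp : 0 ≤ 14400 * (ψ s ^ 2 * ψ t ^ 2) := by positivity
    set g := Nat.gcd s t with hg
    have hgpos : 0 < g := Nat.gcd_pos_of_pos_left t (by omega)
    have hs'0 : 0 < s / g := Nat.div_pos (Nat.gcd_le_left t (by omega)) hgpos
    have ht'0 : 0 < t / g := Nat.div_pos (Nat.gcd_le_right s (by omega)) hgpos
    have hsR : (0 : ℝ) < ((s / g : ℕ) : ℝ) := by exact_mod_cast hs'0
    have htR : (0 : ℝ) < ((t / g : ℕ) : ℝ) := by exact_mod_cast ht'0
    by_cases hst : s = t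
    · subst hst
      rw [if_pos rfl]
      have e1 : s / g = 1 := by rw [hg, Nat.gcd_self]; exact Nat.div_self (by omega)
      rw [e1, Nat.cast_one, one_mul, div_one, min_self] at h1
      have h2 : 6 * (2 * (ψ s + ψ s) + 1) * ψ s ≤ 9 * ψ s := by nlinarith
      have h3 : (6 * (2 * (ψ s + ψ s) + 1) * ψ s) ^ 2 ≤ (9 * ψ s) ^ 2 :=
        pow_le_pow_left₀ (by positivity) h2 2
      nlinarith
    · rw [if_neg hst]
      set E0 : ℝ := ((t / g : ℕ) : ℝ) * ψ s + ((s / g : ℕ) : ℝ) * ψ t with hE0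
      set m := min (ψ s / ((s / g : ℕ) : ℝ)) (ψ t / ((t / g : ℕ) : ℝ)) with hm
      have hm0 : 0 ≤ m := le_min (by positivity) (by positivity)
      have hE00 : 0 ≤ E0 := by positivity
      by_cases hgood : 1 / 8 ≤ E0
      · have h2 : E0 * m ≤ 2 * (ψ s * ψ t) := min_prod hsR htR hsp.le htp.le
        have h3 : 6 * (2 * E0 + 1) * m ≤ 120 * (ψ s * ψ t) := by nlinarith
        have h4 : (6 * (2 * E0 + 1) * m) ^ 2 ≤ (120 * (ψ s * ψ t)) ^ 2 :=
          pow_le_pow_left₀ (by positivity) h3 2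
        have h5 : (120 * (ψ s * ψ t)) ^ 2 = 14400 * (ψ s ^ 2 * ψ t ^ 2) := by ring
        linarith
      · push Not at hgood
        by_cases hne : (E y (ψ s) s ∩ E y (ψ t) t).Nonempty
        · have h3 : (6 * (2 * E0 + 1) * m) ^ 2 ≤ 57 * m ^ 2 := by
            have h4 : 6 * (2 * E0 + 1) ≤ 15 / 2 := by linarith
            have h5 : (6 * (2 * E0 + 1)) ^ 2 ≤ (15 / 2) ^ 2 :=
              pow_le_pow_left₀ (by positivity) h4 2
            rw [mul_pow]
            have h6 : 0 ≤ m ^ 2 := by positivity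
            nlinarith
          rcases le_total (ψ t) (ψ s) with hle | hle
          · have hb : bad s t := ⟨fun h => hst h.symm, hle, hgood, hne⟩
            have hGe : G s t = 57 * ψ s ^ 2 * (1 / ((max (s / g) (t / g) : ℕ) : ℝ) ^ 2) := by
              simp only [hG]; rw [if_pos hb]
            have h4 : m ≤ ψ s / ((max (s / g) (t / g) : ℕ) : ℝ) := by
              rcases max_choice (s / g) (t / g) with h | h
              · rw [h]; exact min_le_left _ _
              · rw [h]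
                exact (min_le_right _ _).trans (div_le_div_of_nonneg_right hle htR.le)
            have h5 : m ^ 2 ≤ (ψ s / ((max (s / g) (t / g) : ℕ) : ℝ)) ^ 2 :=
              pow_le_pow_left₀ hm0 h4 2
            have h6 : (ψ s / ((max (s / g) (t / g) : ℕ) : ℝ)) ^ 2 =
                ψ s ^ 2 * (1 / ((max (s / g) (t / g) : ℕ) : ℝ) ^ 2) := by
              rw [div_pow]; ring
            rw [hGe]
            linarith
          · have hne' : (E y (ψ t) t ∩ E y (ψ s) s).Nonempty := by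
              rw [Set.inter_comm]; exact hne
            have hcomm : Nat.gcd t s = g := by rw [hg, Nat.gcd_comm]
            have hb : bad t s := by
              refine ⟨hst, hle, ?_, hne'⟩
              rw [hcomm, add_comm]; exact hgood
            have hGe : G t s = 57 * ψ t ^ 2 * (1 / ((max (t / g) (s / g) : ℕ) : ℝ) ^ 2) := by
              simp only [hG]; rw [if_pos hb, hcomm]
            have h4 : m ≤ ψ t / ((max (t / g) (s / g) : ℕ) : ℝ) := by
              rcases max_choice (t / g) (s / g) with h | h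
              · rw [h]; exact min_le_right _ _
              · rw [h]
                exact (min_le_left _ _).trans (div_le_div_of_nonneg_right hle hsR.le)
            have h5 : m ^ 2 ≤ (ψ t / ((max (t / g) (s / g) : ℕ) : ℝ)) ^ 2 :=
              pow_le_pow_left₀ hm0 h4 2
            have h6 : (ψ t / ((max (t / g) (s / g) : ℕ) : ℝ)) ^ 2 =
                ψ t ^ 2 * (1 / ((max (t / g) (s / g) : ℕ) : ℝ) ^ 2) := by
              rw [div_pow]; ring
            rw [hGe]
            linarith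
        · rw [Set.not_nonempty_iff_eq_empty] at hne
          rw [hne, Set.inter_empty, measure_empty, ENNReal.toReal_zero]
          linarith
  calc ∑ s ∈ T, ∑ t ∈ T, (volume (Set.Icc (0 : ℝ × ℝ) 1 ∩ (E y (ψ s) s ∩ E y (ψ t) t))).toReal
      ≤ ∑ s ∈ T, ∑ t ∈ T, (14400 * (ψ s ^ 2 * ψ t ^ 2) + (if s = t then 81 * ψ s ^ 2 else 0) +
          G s t + G t s) := Finset.sum_le_sum fun s hs => Finset.sum_le_sum fun t ht => hmain s hs t ht
    _ = 14400 * (∑ t ∈ T, ψ t ^ 2) ^ 2 + 81 * ∑ s ∈ T, ψ s ^ 2 + ∑ s ∈ T, ∑ t ∈ T, G s t +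
          ∑ t ∈ T, ∑ s ∈ T, G t s := by
        simp_rw [Finset.sum_add_distrib]
        congr 1
        · congr 1
          congr 1
          · rw [sq, Finset.sum_mul_sum, Finset.mul_sum]
            apply Finset.sum_congr rfl
            intro s _
            rw [Finset.mul_sum]
          · rw [Finset.mul_sum]
            apply Finset.sum_congr rfl
            intro s hs
            rw [Finset.sum_ite_eq, if_pos hs]
        · exact Finset.sum_comm
    _ ≤ 14400 * (∑ t ∈ T, ψ t ^ 2) ^ 2 + 81 * ∑ s ∈ T, ψ s ^ 2 + ∑ s ∈ T, 57 * 1008 * ψ s ^ 2 +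
          ∑ s ∈ T, 57 * 1008 * ψ s ^ 2 := by
        have h1 := Finset.sum_le_sum hGsum
        linarith
    _ ≤ _ := by
        rw [← Finset.mul_sum]
        have h1 : 0 ≤ ∑ s ∈ T, ψ s ^ 2 := Finset.sum_nonneg fun _ _ => by positivity
        linarith

end Pool.Agent.U14.IK
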