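import Mathlib
import Pool.Agent.U14.IK.CE
import Pool.Agent.U14.IK.Quasi
import Pool.Agent.U14.IK.Local

/-!
# Full measure
-/

set_option autoImplicit false

open Finset MeasureTheory

namespace Pool.Agent.U14.IK

theorem E_open (y : ℝ × ℝ) (a : ℝ) (q : ℕ) : IsOpen (E y a q) := by
  have h : E y a q = ⋃ p : {p : ℤ × ℤ // Adm y q p},
      ({x : ℝ × ℝ | |q * x.1 - p.1.1 - y.1| < a} ∩ {x : ℝ × ℝ | |q * x.2 - p.1.2 - y.2| < a}) := by
    ext x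
    simp only [E, Set.mem_ofPred_eq, Set.mem_iUnion, Set.mem_inter_iff, Subtype.exists, exists_prop]
  rw [h]
  apply isOpen_iUnion
  intro p
  apply IsOpen.inter
  · exact isOpen_lt (by fun_prop) continuous_const
  · exact isOpen_lt (by fun_prop) continuous_const

/-- the limsup set -/
def Lim (y : ℝ × ℝ) (ψ : ℕ → ℝ) : Set (ℝ × ℝ) := {x | ∀ M : ℕ, ∃ q : ℕ, M ≤ q ∧ 1 ≤ q ∧ x ∈ E y (ψ q) q}

theorem Lim_eq (y : ℝ × ℝ) (ψ : ℕ → ℝ) :
    Lim y ψ = ⋂ M : ℕ, ⋃ q : ℕ, ⋃ (_ : M ≤ q ∧ 1 ≤ q), E y (ψ q) q := by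
  ext x
  simp only [Lim, Set.mem_ofPred_eq, Set.mem_iInter, Set.mem_iUnion, exists_prop]
  constructor
  · intro h M; obtain ⟨q, h1, h2, h3⟩ := h M; exact ⟨q, ⟨h1, h2⟩, h3⟩
  · intro h M; obtain ⟨q, ⟨h1, h2⟩, h3⟩ := h M; exact ⟨q, h1, h2, h3⟩

theorem exists_block (ψ : ℕ → ℝ) (hψ : ∀ q, 0 ≤ ψ q) (hdiv : ¬ Summable (fun q : ℕ => ψ q ^ 2))
    (M : ℕ) (B : ℝ) : ∃ T : Finset ℕ, (∀ q ∈ T, M ≤ q ∧ 0 < ψ q) ∧ B ≤ ∑ q ∈ T, ψ q ^ 2 := by
  classical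
  rw [not_summable_iff_tendsto_nat_atTop_of_nonneg (fun q => by positivity)] at hdiv
  obtain ⟨N, hN⟩ := (Filter.tendsto_atTop.mp hdiv (B + ∑ q ∈ range M, ψ q ^ 2)).exists_forall_of_atTop
  have h1 := hN (max N M) (le_max_left _ _)
  refine ⟨(Finset.Ico M (max N M)).filter (fun q => 0 < ψ q), ?_, ?_⟩
  · intro q hq
    rw [Finset.mem_filter, Finset.mem_Ico] at hq
    exact ⟨hq.1.1, hq.2⟩
  · have h2 := Finset.sum_range_add_sum_Ico (fun q => ψ q ^ 2) (le_max_right N M)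
    have h3 : ∑ q ∈ (Finset.Ico M (max N M)).filter (fun q => 0 < ψ q), ψ q ^ 2 =
        ∑ q ∈ Finset.Ico M (max N M), ψ q ^ 2 := by
      apply Finset.sum_filter_of_ne
      intro q _ hne
      have h4 : ψ q ≠ 0 := by
        intro h; apply hne; rw [h]; norm_num
      exact lt_of_le_of_ne (hψ q) (Ne.symm h4)
    rw [h3]
    linarith

theorem Sq_subset {n i j : ℕ} (hn : 1 ≤ n) (hi : i < n) (hj : j < n) :
    Sq n i j ⊆ Set.Icc (0 : ℝ × ℝ) 1 := by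
  have hnR : (0 : ℝ) < n := by exact_mod_cast hn
  have aux : ∀ (i : ℕ) (x : ℝ), i < n → x ∈ Set.Ico ((i : ℝ) / n) ((i + 1) / n) → 0 ≤ x ∧ x ≤ 1 := by
    intro i x hi hx
    refine ⟨le_trans (by positivity) hx.1, hx.2.le.trans ?_⟩
    rw [div_le_one hnR]
    exact_mod_cast hi
  rintro ⟨x1, x2⟩ ⟨h1, h2⟩
  have a1 := aux i x1 hi h1
  have a2 := aux j x2 hj h2
  exact ⟨⟨a1.1, a2.1⟩, ⟨a1.2, a2.2⟩⟩

theorem Sq_meas (n i j : ℕ) : MeasurableSet (Sq n i j) := measurableSet_Ico.prod measurableSet_Ico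

theorem Sq_vol {n i j : ℕ} (hn : 1 ≤ n) : volume (Sq n i j) = ENNReal.ofReal (1 / (n : ℝ) ^ 2) := by
  have hnR : (0 : ℝ) < n := by exact_mod_cast hn
  unfold Sq
  rw [Measure.volume_eq_prod, Measure.prod_prod, Real.volume_Ico, Real.volume_Ico]
  have e : ∀ c : ℝ, (c + 1) / n - c / n = 1 / n := by intro c; field_simp; ring
  rw [e, e, ← ENNReal.ofReal_mul (by positivity)]
  congr 1
  field_simp

theorem Sq_disj {n i j i' j' : ℕ} (hn : 1 ≤ n) (h : (i, j) ≠ (i', j')) :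
    Disjoint (Sq n i j) (Sq n i' j') := by
  have hnR : (0 : ℝ) < n := by exact_mod_cast hn
  rw [Set.disjoint_left]
  rintro ⟨x1, x2⟩ ⟨h1, h2⟩ ⟨h1', h2'⟩
  apply h
  have aux : ∀ (i i' : ℕ) (x : ℝ), x ∈ Set.Ico ((i : ℝ) / n) ((i + 1) / n) →
      x ∈ Set.Ico ((i' : ℝ) / n) ((i' + 1) / n) → i = i' := by
    intro i i' x hx hx'
    rw [Set.mem_Ico, div_le_iff₀ hnR, lt_div_iff₀ hnR] at hx hx'
    have g1 : (i : ℝ) < i' + 1 := by linarith [hx.1, hx'.2]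
    have g2 : (i' : ℝ) < i + 1 := by linarith [hx'.1, hx.2]
    have g3 : i < i' + 1 := by exact_mod_cast g1
    have g4 : i' < i + 1 := by exact_mod_cast g2
    omega
  rw [aux i i' x1 h1 h1', aux j j' x2 h2 h2']

/-- the union of grid squares -/
def Fs (n : ℕ) (J : Finset (ℕ × ℕ)) : Set (ℝ × ℝ) := ⋃ c ∈ J, Sq n c.1 c.2

theorem Fs_meas (n : ℕ) (J : Finset (ℕ × ℕ)) : MeasurableSet (Fs n J) :=
  Finset.measurableSet_biUnion _ fun c _ => Sq_meas n c.1 c.2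

theorem Fs_subset {n : ℕ} (hn : 1 ≤ n) {J : Finset (ℕ × ℕ)} (hJ : ∀ c ∈ J, c.1 < n ∧ c.2 < n) :
    Fs n J ⊆ Set.Icc (0 : ℝ × ℝ) 1 :=
  Set.iUnion₂_subset fun c hc => Sq_subset hn (hJ c hc).1 (hJ c hc).2

theorem Fs_vol {n : ℕ} (hn : 1 ≤ n) (J : Finset (ℕ × ℕ)) :
    (volume (Fs n J)).toReal = J.card * (1 / (n : ℝ) ^ 2) := by
  unfold Fs
  rw [measure_biUnion_finset (fun c _ c' _ h => Sq_disj hn h) (fun c _ => Sq_meas n c.1 c.2),
    Finset.sum_congr rfl (fun c _ => Sq_vol hn), Finset.sum_const, nsmul_eq_mul,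
    ENNReal.toReal_mul, ENNReal.toReal_natCast, ENNReal.toReal_ofReal (by positivity)]

/-- lower bound for the limsup set in a union of squares -/
theorem lim_lower (y : ℝ × ℝ) (ψ : ℕ → ℝ) (hψ : ∀ q, 0 ≤ ψ q ∧ ψ q ≤ 1 / 8)
    (hdiv : ¬ Summable (fun q : ℕ => ψ q ^ 2)) (n : ℕ) (hn : 1 ≤ n) (J : Finset (ℕ × ℕ))
    (hJ : ∀ c ∈ J, c.1 < n ∧ c.2 < n) :
    (volume (Fs n J)).toReal ^ 2 / 4000 ≤ (volume (Lim y ψ ∩ Fs n J)).toReal := by
  classical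
  set F := Fs n J with hF
  have hFm : MeasurableSet F := Fs_meas n J
  have hFsub : F ⊆ Set.Icc (0 : ℝ × ℝ) 1 := Fs_subset hn hJ
  have hIcc : volume (Set.Icc (0 : ℝ × ℝ) 1) ≠ ⊤ := isCompact_Icc.measure_ne_top
  have hFfin : volume F ≠ ⊤ := measure_ne_top_of_subset hFsub hIcc
  set μ := volume.restrict F with hμ
  have : IsFiniteMeasure μ := ⟨by rw [hμ, Measure.restrict_apply_univ]; exact hFfin.lt_top⟩
  set V := (volume F).toReal with hV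
  have hV0 : 0 ≤ V := ENNReal.toReal_nonneg
  obtain ⟨q0, hq0⟩ := local_lower y n hn
  have hlow : ∀ q, q0 ≤ q → 2 * ψ q ^ 2 * V ≤ μ.real (E y (ψ q) q) := by
    intro q hq
    have h1 : μ.real (E y (ψ q) q) = (volume (E y (ψ q) q ∩ F)).toReal := by
      rw [Measure.real, hμ, Measure.restrict_apply (E_open _ _ _).measurableSet]
    have h2 : E y (ψ q) q ∩ F = ⋃ c ∈ J, (E y (ψ q) q ∩ Sq n c.1 c.2) := by
      rw [hF, Fs, Set.inter_iUnion₂]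
    rw [h1, h2, measure_biUnion_finset, ENNReal.toReal_sum]
    · rw [hV, hF, Fs_vol hn]
      calc 2 * ψ q ^ 2 * (J.card * (1 / (n : ℝ) ^ 2)) = ∑ c ∈ J, 2 * ψ q ^ 2 * (1 / (n : ℝ) ^ 2) := by
            rw [Finset.sum_const, nsmul_eq_mul]; ring
        _ ≤ _ := Finset.sum_le_sum fun c _ => hq0 q hq (ψ q) (hψ q).1 (hψ q).2 c.1 c.2
    · intro c hc
      exact measure_ne_top_of_subset (Set.inter_subset_right.trans
        (Sq_subset hn (hJ c hc).1 (hJ c hc).2)) hIcc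
    · intro c _ c' _ h
      exact (Sq_disj hn h).mono Set.inter_subset_right Set.inter_subset_right
    · intro c _
      exact (E_open _ _ _).measurableSet.inter (Sq_meas _ _ _)
  have hpair : ∀ q r, μ.real (E y (ψ q) q ∩ E y (ψ r) r) ≤
      (volume (Set.Icc (0 : ℝ × ℝ) 1 ∩ (E y (ψ q) q ∩ E y (ψ r) r))).toReal := by
    intro q r
    rw [Measure.real, hμ, Measure.restrict_apply
      ((E_open _ _ _).measurableSet.inter (E_open _ _ _).measurableSet)]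
    apply ENNReal.toReal_mono (measure_ne_top_of_subset Set.inter_subset_left hIcc)
    apply measure_mono
    rintro x ⟨h1, h2⟩
    exact ⟨hFsub h2, h1⟩
  set U : ℕ → Set (ℝ × ℝ) := fun M => ⋃ q : ℕ, ⋃ (_ : M ≤ q ∧ 1 ≤ q), E y (ψ q) q with hU
  have hUm : ∀ M, MeasurableSet (U M) := fun M =>
    MeasurableSet.iUnion fun q => MeasurableSet.iUnion fun _ => (E_open _ _ _).measurableSet
  have hUlow : ∀ M, V ^ 2 / 4000 ≤ (μ (U M)).toReal := by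
    intro M
    obtain ⟨T, hT, hB⟩ := exists_block ψ (fun q => (hψ q).1) hdiv (max M (max 1 q0)) 1000
    set W := ∑ q ∈ T, ψ q ^ 2 with hW
    have hT' : ∀ q ∈ T, M ≤ q ∧ 1 ≤ q ∧ q0 ≤ q ∧ 0 < ψ q := by
      intro q hq
      obtain ⟨h1, h2⟩ := hT q hq
      rw [max_le_iff, max_le_iff] at h1
      exact ⟨h1.1, h1.2.1, h1.2.2, h2⟩
    have hch := ks_chung (μ := μ) T (fun q => E y (ψ q) q)
      (fun q _ => (E_open _ _ _).measurableSet)
    have h1 : 2 * W * V ≤ ∑ q ∈ T, μ.real (E y (ψ q) q) := by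
      calc 2 * W * V = ∑ q ∈ T, 2 * ψ q ^ 2 * V := by
            rw [hW, Finset.mul_sum, Finset.sum_mul]
        _ ≤ _ := Finset.sum_le_sum fun q hq => hlow q (hT' q hq).2.2.1
    have h2 : ∑ q ∈ T, ∑ r ∈ T, μ.real (E y (ψ q) q ∩ E y (ψ r) r) ≤
        14400 * W ^ 2 + 200000 * W := by
      refine le_trans (Finset.sum_le_sum fun q _ => Finset.sum_le_sum fun r _ => hpair q r) ?_
      exact quasi y ψ T (fun q hq => ⟨(hT' q hq).2.1, (hT' q hq).2.2.2, (hψ q).2⟩)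
    have h3 : μ.real (⋃ q ∈ T, E y (ψ q) q) ≤ (μ (U M)).toReal := by
      refine measureReal_mono ?_ (measure_ne_top _ _)
      refine Set.iUnion₂_subset fun q hq => ?_
      exact Set.subset_iUnion_of_subset q (Set.subset_iUnion_of_subset
        ⟨(hT' q hq).1, (hT' q hq).2.1⟩ subset_rfl)
    have hu0 : 0 ≤ (μ (U M)).toReal := ENNReal.toReal_nonneg
    have hW0 : 1000 ≤ W := hB
    have h4 : 14400 * W ^ 2 + 200000 * W ≤ 14600 * W ^ 2 := by nlinarith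
    have h5 : (2 * W * V) ^ 2 ≤ 14600 * W ^ 2 * (μ (U M)).toReal := by
      calc (2 * W * V) ^ 2 ≤ (∑ q ∈ T, μ.real (E y (ψ q) q)) ^ 2 :=
            pow_le_pow_left₀ (by positivity) h1 2
        _ ≤ _ := hch
        _ ≤ (14600 * W ^ 2) * (μ (U M)).toReal :=
            mul_le_mul (h2.trans h4) h3 measureReal_nonneg (by positivity)
    have h6 : 0 < W ^ 2 := by positivity
    have h7 : 4 * V ^ 2 ≤ 14600 * (μ (U M)).toReal := by
      have : W ^ 2 * (4 * V ^ 2) ≤ W ^ 2 * (14600 * (μ (U M)).toReal) := by nlinarith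
      exact le_of_mul_le_mul_left this h6
    linarith
  have hanti : Antitone U := by
    intro k l hkl
    refine Set.iUnion_subset fun q => Set.iUnion_subset fun hq => ?_
    exact Set.subset_iUnion_of_subset q (Set.subset_iUnion_of_subset ⟨hkl.trans hq.1, hq.2⟩ subset_rfl)
  have hlim := tendsto_measure_iInter_atTop (μ := μ) (fun k => (hUm k).nullMeasurableSet) hanti
    ⟨0, measure_ne_top _ _⟩
  have hlim2 := (ENNReal.tendsto_toReal (measure_ne_top μ (⋂ k, U k))).comp hlim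
  have h8 : V ^ 2 / 4000 ≤ (μ (⋂ k, U k)).toReal := ge_of_tendsto' hlim2 hUlow
  have h9 : μ (⋂ k, U k) = volume (Lim y ψ ∩ F) := by
    rw [Lim_eq, hμ, Measure.restrict_apply (MeasurableSet.iInter hUm)]
  rwa [h9] at h8

theorem Lim_meas (y : ℝ × ℝ) (ψ : ℕ → ℝ) : MeasurableSet (Lim y ψ) := by
  rw [Lim_eq]
  exact MeasurableSet.iInter fun M => MeasurableSet.iUnion fun q => MeasurableSet.iUnion fun _ =>
    (E_open _ _ _).measurableSet

/-- a compact set in the half-open square outside the limsup set is null -/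
theorem compact_null (y : ℝ × ℝ) (ψ : ℕ → ℝ) (hψ : ∀ q, 0 ≤ ψ q ∧ ψ q ≤ 1 / 8)
    (hdiv : ¬ Summable (fun q : ℕ => ψ q ^ 2)) (K : Set (ℝ × ℝ)) (hK : IsCompact K)
    (hKQ : K ⊆ Set.Ico (0 : ℝ) 1 ×ˢ Set.Ico (0 : ℝ) 1) (hKL : Disjoint K (Lim y ψ)) :
    volume K = 0 := by
  classical
  have hKfin : volume K ≠ ⊤ := hK.measure_ne_top
  set v := (volume K).toReal with hv
  have hv0 : 0 ≤ v := ENNReal.toReal_nonneg
  by_contra hne
  have hvpos : 0 < v := ENNReal.toReal_pos hne hKfin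
  set ε : ℝ := v ^ 2 / 8000 with hε
  have hεpos : 0 < ε := by positivity
  obtain ⟨U, hKU, hUo, hUv⟩ := Set.exists_isOpen_lt_add K hKfin
    (ε := ENNReal.ofReal ε) (by rw [Ne, ENNReal.ofReal_eq_zero]; linarith)
  obtain ⟨δ, hδ, hthick⟩ := hK.exists_thickening_subset_open hUo hKU
  obtain ⟨n, hn⟩ := exists_nat_one_div_lt hδ
  set N := n + 1 with hN
  have hN1 : 1 ≤ N := by omega
  have hNR : (0 : ℝ) < N := by exact_mod_cast hN1
  have hNδ : 1 / (N : ℝ) < δ := by rw [hN]; push_cast; exact hn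
  set J : Finset (ℕ × ℕ) := (range N ×ˢ range N).filter (fun c => (Sq N c.1 c.2 ∩ K).Nonempty) with hJ
  have hJlt : ∀ c ∈ J, c.1 < N ∧ c.2 < N := by
    intro c hc
    rw [hJ, Finset.mem_filter, Finset.mem_product, Finset.mem_range, Finset.mem_range] at hc
    exact hc.1
  have hKF : K ⊆ Fs N J := by
    intro x hx
    have aux : ∀ t : ℝ, t ∈ Set.Ico (0 : ℝ) 1 → ∃ i < N, t ∈ Set.Ico ((i : ℝ) / N) ((i + 1) / N) := by
      intro t ht
      have h0 : 0 ≤ t * N := mul_nonneg ht.1 hNR.le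
      refine ⟨⌊t * N⌋₊, ?_, ?_, ?_⟩
      · rw [Nat.floor_lt h0]
        nlinarith [ht.2]
      · rw [div_le_iff₀ hNR]; exact Nat.floor_le h0
      · rw [lt_div_iff₀ hNR]; exact Nat.lt_floor_add_one _
    obtain ⟨i, hi, hxi⟩ := aux x.1 (hKQ hx).1
    obtain ⟨j, hj, hxj⟩ := aux x.2 (hKQ hx).2
    rw [Fs, Set.mem_iUnion₂]
    refine ⟨(i, j), ?_, ⟨hxi, hxj⟩⟩
    rw [hJ, Finset.mem_filter, Finset.mem_product, Finset.mem_range, Finset.mem_range]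
    exact ⟨⟨hi, hj⟩, ⟨x, ⟨hxi, hxj⟩, hx⟩⟩
  have hFU : Fs N J ⊆ U := by
    refine subset_trans ?_ hthick
    intro z hz
    rw [Fs, Set.mem_iUnion₂] at hz
    obtain ⟨c, hc, hz1, hz2⟩ := hz
    rw [hJ, Finset.mem_filter] at hc
    obtain ⟨x, ⟨hx1, hx2⟩, hxK⟩ := hc.2
    rw [Metric.mem_thickening_iff]
    refine ⟨x, hxK, ?_⟩
    rw [Prod.dist_eq]
    have aux : ∀ (i : ℕ) (a b : ℝ), a ∈ Set.Ico ((i : ℝ) / N) ((i + 1) / N) →
        b ∈ Set.Ico ((i : ℝ) / N) ((i + 1) / N) → dist a b < δ := by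
      intro i a b ha hb
      rw [Real.dist_eq, abs_lt]
      have e : ((i : ℝ) + 1) / N = i / N + 1 / N := by ring
      rw [e] at ha hb
      constructor <;> linarith [ha.1, ha.2, hb.1, hb.2]
    exact max_lt (aux c.1 _ _ hz1 hx1) (aux c.2 _ _ hz2 hx2)
  have h1 := lim_lower y ψ hψ hdiv N hN1 J hJlt
  have hUfin : volume U ≠ ⊤ := ne_top_of_lt hUv
  have hFfin : volume (Fs N J) ≠ ⊤ := measure_ne_top_of_subset hFU hUfin
  have h2 : v ≤ (volume (Fs N J)).toReal := ENNReal.toReal_mono hFfin (measure_mono hKF)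
  have h3 : (volume (Lim y ψ ∩ Fs N J)).toReal ≤ ε := by
    have h4 : Lim y ψ ∩ Fs N J ⊆ U \ K := by
      rintro x ⟨hx1, hx2⟩
      exact ⟨hFU hx2, fun hxK => Set.disjoint_left.mp hKL hxK hx1⟩
    have h5 : volume (U \ K) = volume U - volume K :=
      measure_sdiff hKU hK.measurableSet.nullMeasurableSet hKfin
    have h6 : volume (U \ K) ≤ ENNReal.ofReal ε := by
      rw [h5]
      exact tsub_le_iff_left.mpr hUv.le
    exact ENNReal.toReal_le_of_le_ofReal hεpos.le ((measure_mono h4).trans h6)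
  have h7 : v ^ 2 ≤ (volume (Fs N J)).toReal ^ 2 := pow_le_pow_left₀ hv0 h2 2
  have h8 : 0 < v ^ 2 := by positivity
  linarith

/-- almost every point of the half-open square is in the limsup set -/
theorem ae_Lim (y : ℝ × ℝ) (ψ : ℕ → ℝ) (hψ : ∀ q, 0 ≤ ψ q ∧ ψ q ≤ 1 / 8)
    (hdiv : ¬ Summable (fun q : ℕ => ψ q ^ 2)) :
    volume ((Set.Ico (0 : ℝ) 1 ×ˢ Set.Ico (0 : ℝ) 1) \ Lim y ψ) = 0 := by
  by_contra hne
  have hm : MeasurableSet ((Set.Ico (0 : ℝ) 1 ×ˢ Set.Ico (0 : ℝ) 1) \ Lim y ψ) :=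
    (measurableSet_Ico.prod measurableSet_Ico).diff (Lim_meas y ψ)
  obtain ⟨K, hKs, hK, hKv⟩ := hm.exists_lt_isCompact (pos_iff_ne_zero.mpr hne)
  have h1 := compact_null y ψ hψ hdiv K hK (hKs.trans Set.sdiff_subset)
    (Set.disjoint_left.mpr fun x hx => (hKs hx).2)
  exact hKv.ne' h1

/-- **Theorem.** -/
theorem main (y : ℝ × ℝ) (ψ : ℕ → ℝ) (hψ : ∀ q, 0 ≤ ψ q) (hdiv : ¬ Summable (fun q : ℕ => ψ q ^ 2)) :
    ∀ᵐ x ∂(volume.restrict (Set.Icc (0 : ℝ × ℝ) 1)),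
      {q : ℕ | 0 < q ∧ ∃ a : ℤ × ℤ, ‖(q : ℝ) • x - ((a.1 : ℝ), (a.2 : ℝ)) - y‖ < ψ q}.Infinite := by
  set ψ' : ℕ → ℝ := fun q => min (ψ q) (1 / 8) with hψ'
  have h1 : ∀ q, 0 ≤ ψ' q ∧ ψ' q ≤ 1 / 8 := fun q => ⟨le_min (hψ q) (by norm_num), min_le_right _ _⟩
  have h2 : ¬ Summable (fun q : ℕ => ψ' q ^ 2) := by
    intro hs
    apply hdiv
    have h3 := hs.tendsto_cofinite_zero
    have h4 : ∀ᶠ q in Filter.cofinite, ψ' q ^ 2 < 1 / 64 := h3.eventually_lt_const (by norm_num)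
    have h5 : ∀ᶠ q in Filter.cofinite, ψ q ^ 2 = ψ' q ^ 2 := by
      filter_upwards [h4] with q hq
      have : ψ' q = ψ q := by
        rcases min_choice (ψ q) (1 / 8) with h | h
        · exact h
        · exfalso
          have e : ψ' q = 1 / 8 := h
          rw [e] at hq
          norm_num at hq
      rw [this]
    exact (summable_congr_cofinite h5).mpr hs
  have h3 := ae_Lim y ψ' h1 h2
  rw [ae_restrict_iff' measurableSet_Icc]
  -- the boundary is null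
  have hb : volume (Set.Icc (0 : ℝ × ℝ) 1 \ (Set.Ico (0 : ℝ) 1 ×ˢ Set.Ico (0 : ℝ) 1)) = 0 := by
    have hsub : Set.Icc (0 : ℝ × ℝ) 1 \ (Set.Ico (0 : ℝ) 1 ×ˢ Set.Ico (0 : ℝ) 1) ⊆
        (({1} : Set ℝ) ×ˢ Set.univ) ∪ (Set.univ ×ˢ ({1} : Set ℝ)) := by
      rintro ⟨x1, x2⟩ ⟨⟨⟨ha, hb⟩, ⟨hc, hd⟩⟩, hn⟩
      simp only [Prod.fst_zero, Prod.snd_zero, Prod.fst_one, Prod.snd_one] at ha hb hc hd
      by_cases h : x1 < 1
      · right
        refine ⟨trivial, ?_⟩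
        by_contra h'
        apply hn
        refine ⟨⟨ha, h⟩, ⟨hb, lt_of_le_of_ne hd h'⟩⟩
      · left
        exact ⟨le_antisymm hc (not_lt.mp h), trivial⟩
    refine measure_mono_null hsub (measure_union_null ?_ ?_)
    · rw [Measure.volume_eq_prod, Measure.prod_prod]; simp
    · rw [Measure.volume_eq_prod, Measure.prod_prod]; simp
  have h4 : ∀ᵐ x : ℝ × ℝ, x ∉ (Set.Ico (0 : ℝ) 1 ×ˢ Set.Ico (0 : ℝ) 1) \ Lim y ψ' :=
    measure_eq_zero_iff_ae_notMem.mp h3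
  have h5 : ∀ᵐ x : ℝ × ℝ, x ∉ Set.Icc (0 : ℝ × ℝ) 1 \ (Set.Ico (0 : ℝ) 1 ×ˢ Set.Ico (0 : ℝ) 1) :=
    measure_eq_zero_iff_ae_notMem.mp hb
  filter_upwards [h4, h5] with x hx1 hx2 hx
  have hxQ : x ∈ Set.Ico (0 : ℝ) 1 ×ˢ Set.Ico (0 : ℝ) 1 := by
    by_contra h; exact hx2 ⟨hx, h⟩
  have hxL : x ∈ Lim y ψ' := by
    by_contra h; exact hx1 ⟨hxQ, h⟩
  rw [Set.infinite_iff_exists_gt]
  intro M
  obtain ⟨q, hq1, hq2, p, _, hp1, hp2⟩ := hxL (M + 1)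
  refine ⟨q, ⟨by omega, p, ?_⟩, by omega⟩
  have h6 : ψ' q ≤ ψ q := min_le_left _ _
  rw [Prod.norm_def, max_lt_iff]
  constructor
  · simpa [Real.norm_eq_abs] using hp1.trans_le h6
  · simpa [Real.norm_eq_abs] using hp2.trans_le h6

end Pool.Agent.U14.IK
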